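import Pool.Agent.MUX.XFAll
import Pool.Agent.MUX.StHX2

/-!
# TWB, module DPL (helper34): depletion of the symbols of theta series at a prime `l` dividing the level

If `e` is zero at all `x` which are not prime to `l`, then `∑_(k<l) θ_b(z + k/l) = 0`, because
`l ∣ N x/N b` implies that `x` is not prime to `l`. So `∑_(k<l) Φ_b(∞, x + k/l) = 0`.
-/

set_option autoImplicit false

namespace Pool.Agent.TWB

open _root_.MU3 Pool.Agent.MU3A Pool.Agent.MU3B Pool.Agent.MU3F Pool.Agent.MuSym OnePoint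
open Pool.Agent.MUXF (Sx_ALG Sx_QB Sx_BDD Sx_TSM Sx_ITG xf_ALG xf_QB xf_BDD xf_TSM xf_ITG)
open scoped ComplexConjugate

noncomputable section

namespace DPL

open Pool.Agent.MUXF

/-- a point `x` with `l ∣ N x / N b` is not prime to `l` -/
lemma ezero (A B : ℤ) (hc : MUXF.CQ A B) (b g : Ideal (OO A B)) (e : OO A B → ℂ) (l : ℕ)
    (hb : b ≠ ⊥) (he : MUXF.IsEI g e) (hl : l.Prime) (hgl : g ≤ Ideal.span {((l : ℕ) : OO A B)})
    (x : OO A B) (hx : x ∈ b) (hd : (l : ℤ) ∣ MUXF.qb b x) : e x = 0 := by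
  by_contra hne
  obtain ⟨_, h2, h3, _, hdom⟩ := xf_ALG A B hc
  obtain ⟨hQ1, -, -⟩ := xf_QB A B hc b hb
  have h4 := (he.supp x).1 hne
  have h5 : (l : ℤ) ∣ nm x := by
    rw [(hQ1 x hx).1]
    exact hd.mul_left _
  have h6 : IsCoprime (Ideal.span {x}) (Ideal.span {((l : ℕ) : OO A B)}) := by
    rw [Ideal.isCoprime_iff_sup_eq] at h4 ⊢
    rw [eq_top_iff, ← h4]
    exact sup_le_sup_left hgl _
  rw [Ideal.isCoprime_span_singleton_iff] at h6
  have h7 : IsCoprime (star x) ((l : ℕ) : OO A B) := by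
    obtain ⟨u, v, huv⟩ := h6
    refine ⟨star u, star v, ?_⟩
    have := congrArg star huv
    simpa [mul_comm] using this
  have h8 : IsCoprime (x * star x) ((l : ℕ) : OO A B) := h6.mul_left h7
  rw [(h2 x).2.2.2.2.1] at h8
  obtain ⟨t, ht⟩ := h5
  rw [ht] at h8
  obtain ⟨u, v, huv⟩ := h8
  have h9 : ((l : ℕ) : OO A B) * (u * (t : OO A B) + v) = 1 := by
    rw [← huv]
    push_cast
    ring
  have h10 := congrArg nm h9
  rw [(xf_ALG A B hc).1 _ _ |>.2.2] at h10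
  have h11 : nm (((l : ℕ) : ℤ) : OO A B) = (l : ℤ) ^ 2 := (h3 l).2
  have h12 : nm (1 : OO A B) = 1 := by
    have := (h3 1).2
    simpa using this
  rw [Int.cast_natCast] at h11
  rw [h11, h12] at h10
  have h13 : (l : ℤ) ∣ 1 := ⟨l * nm (u * (t : OO A B) + v), by rw [← h10]; ring⟩
  have h14 := Int.eq_one_of_dvd_one (by positivity) h13
  have := hl.one_lt
  omega

/-- the sum of the exponentials -/
lemma geom0 {l : ℕ} (hl : l ≠ 0) (n : ℤ) (h : ¬ (l : ℤ) ∣ n) (z : ℂ) :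
    ∑ j ∈ Finset.range l, Complex.exp (2 * Real.pi * Complex.I * (n : ℂ) * (z + (j : ℂ) / l)) = 0 := by
  have h1 := FUL.geom hl n (l * z)
  rw [if_neg h] at h1
  rw [← h1]
  refine Finset.sum_congr rfl fun j _ => ?_
  congr 2
  have hl0 : (l : ℂ) ≠ 0 := Nat.cast_ne_zero.2 hl
  field_simp

lemma theta0 (A B : ℤ) (hc : MUXF.CQ A B) (b g : Ideal (OO A B)) (e : OO A B → ℂ) (l : ℕ)
    (hb : b ≠ ⊥) (hg : g ≠ ⊥) (he : MUXF.IsEI g e) (hl : l.Prime)
    (hgl : g ≤ Ideal.span {((l : ℕ) : OO A B)}) (z : ℂ) (hz : 0 < z.im) :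
    ∑ j ∈ Finset.range l, MUXF.thetaI b e (z + (j : ℂ) / l) = 0 := by
  obtain ⟨-, -, -, hfin, -⟩ := xf_ALG A B hc
  obtain ⟨hQ1, -, -⟩ := xf_QB A B hc b hb
  obtain ⟨-, C, -, hC⟩ := xf_BDD A B hc g e hg he
  have hS := xf_TSM A B hc b hb e C hC
  have hnb : nI b ≠ 0 := by
    have := hfin b hb
    exact (Nat.card_pos (α := OO A B ⧸ b)).ne'
  have hnb0 : (nI b : ℂ) ≠ 0 := Nat.cast_ne_zero.2 hnb
  have him : ∀ j : ℕ, 0 < (z + (j : ℂ) / l).im := by
    intro j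
    have : ((j : ℂ) / l).im = 0 := by
      rw [show ((j : ℂ) / l) = (((j : ℝ) / l : ℝ) : ℂ) by push_cast; rfl]
      exact Complex.ofReal_im _
    rw [Complex.add_im, this, add_zero]
    exact hz
  have hnm : ∀ x : b, ((nm (x : OO A B) : ℂ) / nI b) = ((qb b (x : OO A B) : ℤ) : ℂ) := by
    intro x
    rw [(hQ1 x x.2).1]
    push_cast
    field_simp
  unfold MUXF.thetaI
  rw [← Finset.mul_sum, ← Summable.tsum_finsetSum (fun j _ => hS _ (him j))]
  have h0 : ∀ x : b, ∑ j ∈ Finset.range l, e x * conj (emb (x : OO A B)) *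
      Complex.exp (2 * Real.pi * Complex.I * ((nm (x : OO A B) : ℂ) / nI b) * (z + (j : ℂ) / l)) = 0 := by
    intro x
    by_cases hd : (l : ℤ) ∣ qb b (x : OO A B)
    · rw [ezero A B hc b g e l hb he hl hgl x x.2 hd]
      simp
    · rw [← Finset.mul_sum]
      simp only [hnm]
      rw [geom0 hl.ne_zero _ hd, mul_zero]
  simp only [h0, tsum_zero, mul_zero]

lemma iv0 (A B : ℤ) (hc : MUXF.CQ A B) (b g : Ideal (OO A B)) (e : OO A B → ℂ) (l : ℕ)
    (hb : b ≠ ⊥) (hg : g ≠ ⊥) (he : MUXF.IsEI g e) (hl : l.Prime)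
    (hgl : g ≤ Ideal.span {((l : ℕ) : OO A B)}) (r : ℚ) :
    ∑ j ∈ Finset.range l, MUXF.IvI b e (r + (j : ℚ) / l) = 0 := by
  have h1 : ∀ j ∈ Finset.range l, MeasureTheory.IntegrableOn
      (fun t : ℝ => thetaI b e (((r + (j : ℚ) / l : ℚ) : ℂ) + t * Complex.I)) (Set.Ioi 0) :=
    fun j _ => xf_ITG A B hc b g e hb hg he _
  unfold MUXF.IvI
  rw [← Finset.mul_sum, ← MeasureTheory.integral_finsetSum _ h1]
  have h2 : ∫ t in Set.Ioi (0 : ℝ), ∑ j ∈ Finset.range l,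
      thetaI b e (((r + (j : ℚ) / l : ℚ) : ℂ) + t * Complex.I) =
      ∫ t in Set.Ioi (0 : ℝ), (0 : ℂ) := by
    refine MeasureTheory.setIntegral_congr_fun measurableSet_Ioi fun t ht => ?_
    have ht0 : (0 : ℝ) < t := ht
    have hz : 0 < ((r : ℂ) + t * Complex.I).im := by
      simpa using ht0
    have h3 := theta0 A B hc b g e l hb hg he hl hgl _ hz
    show ∑ j ∈ Finset.range l, thetaI b e (((r + (j : ℚ) / l : ℚ) : ℂ) + t * Complex.I) = 0
    rw [← h3]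
    refine Finset.sum_congr rfl fun j _ => ?_
    congr 1
    push_cast
    ring
  rw [h2]
  simp

end DPL

/-- DPL: the symbols `Φ_b` are depleted at `l` if `l` divides the conductor ideal `g` -/
theorem t_DPL (A B : ℤ) (hc : MUX.CQ A B) (b g : Ideal (OO A B)) (e : OO A B → ℂ) (l : ℕ)
    (hb : b ≠ ⊥) (hg : g ≠ ⊥) (he : MUX.IsEI g e) (hl : l.Prime)
    (hgl : g ≤ Ideal.span {((l : ℕ) : OO A B)}) (x : ℚ) :
    ∑ k ∈ Finset.range l, MUX.PhiI b e ∞ ((x + (k : ℚ) / l : ℚ) : OnePoint ℚ) = 0 := by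
  have h1 := DPL.iv0 A B (MUXHY.toCQ hc) b g e l hb hg (MUXHY.toEI he) hl hgl x
  have h2 : ∀ q : ℚ, MUX.PhiI b e ∞ (q : OnePoint ℚ) = - MUXF.IvI b e q := by
    intro q
    change MUX.IcI b e ∞ - MUX.IcI b e (q : OnePoint ℚ) = _
    change (0 : ℂ) - MUXF.IvI b e q = _
    rw [zero_sub]
  simp only [h2]
  rw [Finset.sum_neg_distrib, h1, neg_zero]

/-- DPP: the symbols `PP R P e kk i` are depleted at `l` if `l` divides the conductor ideal -/
theorem t_DPP (A B : ℤ) (hc : MUX.CQ A B) (n : ℕ) (ι : Type) [Fintype ι] (R : MUX.Reps A B n ι)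
    (P : Ideal (OO A B)) (hP : P ≠ ⊥) (g : Ideal (OO A B)) (e : OO A B → ℂ) (hg : g ≠ ⊥)
    (he : MUX.IsEI g e) (l : ℕ) (hl : l.Prime) (hgl : g ≤ Ideal.span {((l : ℕ) : OO A B)})
    (kk : ι → ℂ) (i : ℕ) (x : ℚ) :
    ∑ k ∈ Finset.range l, MUXHY.PP R P e kk i ∞ ((x + (k : ℚ) / l : ℚ) : OnePoint ℚ) = 0 := by
  have hdom : IsDomain (OO A B) := (xf_ALG A B (MUXHY.toCQ hc)).2.2.2.2
  unfold MUXHY.PP
  rw [← Finset.sum_div, Finset.sum_comm]
  have h0 : ∀ c : ι, ∑ k ∈ Finset.range l, kk c / e ((MUX.nI (R.b c) : ℕ) : OO A B) *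
      MUX.PhiI (R.b c * P ^ i) e ∞ ((x + (k : ℚ) / l : ℚ) : OnePoint ℚ) = 0 := by
    intro c
    rw [← Finset.mul_sum, t_DPL A B hc _ g e l (mul_ne_zero (R.nl c).b_ne (pow_ne_zero _ hP)) hg he
      hl hgl x, mul_zero]
  rw [Finset.sum_eq_zero (fun c _ => h0 c), zero_div]

end

end Pool.Agent.TWB
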