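import Pool.Agent.TWB.St

/-!
# TWB, module TWB (helper88): from `TWR.S_TW2` to the block twist
-/

set_option autoImplicit false

namespace Pool.Agent.TWB

open _root_.MU3 Pool.Agent.MuSym Pool.Agent.MUXH OnePoint Finset

noncomputable section

namespace TWBAux

lemma sum_neg (m : ℕ) (F : ℤ → ℂ) (hF : ∀ x, F (x + m) = F x) :
    ∑ c ∈ range m, F (-(c : ℤ)) = ∑ c ∈ range m, F (c : ℤ) := by
  cases m with
  | zero => simp
  | succ k =>
    rw [sum_range_succ', sum_range_succ']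
    congr 1
    rw [← sum_range_reflect]
    refine sum_congr rfl fun c hc => ?_
    have h1 : c < k := mem_range.1 hc
    have h2 := hF (-((k - 1 - c + 1 : ℕ) : ℤ))
    rw [← h2]
    congr 1
    push_cast
    omega

lemma chi_root (p : ℕ) [NeZero p] (χ : DirichletCharacter ℂ p) (x : ZMod p) :
    χ x = 0 ∨ ∃ n : ℕ, 0 < n ∧ χ x ^ n = 1 := by
  by_cases hx : IsUnit x
  · right
    obtain ⟨u, rfl⟩ := hx
    refine ⟨Fintype.card (ZMod p)ˣ, Fintype.card_pos, ?_⟩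
    rw [← map_pow, ← Units.val_pow_eq_pow_val, pow_card_eq_one, Units.val_one, map_one]
  · left
    exact χ.map_nonunit hx

lemma chi_val (V : ValuationSubring ℂ) (p : ℕ) [NeZero p] (χ : DirichletCharacter ℂ p)
    (x : ZMod p) : V.valuation (χ x) ≤ 1 := by
  rcases chi_root p χ x with h | ⟨n, hn, h⟩
  · rw [h, map_zero]
    exact zero_le_one
  · by_contra hc
    have hc' : 1 < V.valuation (χ x) := not_le.1 hc
    have h1 := one_lt_pow₀ hc' hn.ne'
    rw [← map_pow, h, map_one] at h1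
    exact lt_irrefl _ h1

lemma chi_alg (p : ℕ) [NeZero p] (χ : DirichletCharacter ℂ p) (x : ZMod p) :
    IsAlgebraic ℚ (χ x) := by
  rcases chi_root p χ x with h | ⟨n, hn, h⟩
  · rw [h]
    exact isAlgebraic_zero
  · refine IsAlgebraic.of_pow hn ?_
    rw [h]
    exact isAlgebraic_one

lemma alg_sum (s : Finset ℕ) (f : ℕ → ℂ) (hf : ∀ c, IsAlgebraic ℚ (f c)) :
    IsAlgebraic ℚ (∑ c ∈ s, f c) := by
  have h : ∑ c ∈ s, f c ∈ Subalgebra.algebraicClosure ℚ ℂ := sum_mem fun c _ => hf c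
  exact h

lemma mob_inf (a b d : ℤ) : mob a b 0 d ∞ = ∞ := by
  simp [mob]

lemma mob_tr (p : ℕ) (hp : p ≠ 0) (c : ℕ) (x : ℚ) :
    mob (p : ℤ) (c : ℤ) 0 (p : ℤ) (x : OnePoint ℚ) = ((x + (c : ℚ) / p : ℚ) : OnePoint ℚ) := by
  have hp' : (p : ℚ) ≠ 0 := Nat.cast_ne_zero.2 hp
  have h1 : mob (p : ℤ) (c : ℤ) 0 (p : ℤ) (x : OnePoint ℚ) =
      ((((p : ℚ) * x + c) / p : ℚ) : OnePoint ℚ) := by
    simp [mob, hp]
  rw [h1]
  congr 1
  field_simp

lemma mob_ng (x : ℚ) : mob (-1) 0 0 1 (x : OnePoint ℚ) = ((-x : ℚ) : OnePoint ℚ) := by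
  simp [mob]

/-- the odd part on the paths from infinity -/
lemma sgn_inf (P : OnePoint ℚ → OnePoint ℚ → ℂ) (y : ℚ) :
    sgnPart (-1) P ∞ (y : OnePoint ℚ) = P ∞ (y : OnePoint ℚ) - P ∞ ((-y : ℚ) : OnePoint ℚ) := by
  unfold sgnPart
  rw [mob_inf, mob_ng]
  ring

lemma Bt_inf (p : ℕ) (hp : p ≠ 0) (w : DirichletCharacter ℂ p)
    (Q : OnePoint ℚ → OnePoint ℚ → ℂ) (x : ℚ) :
    Bt p w Q ∞ (x : OnePoint ℚ) =
      ∑ c ∈ range p, w (c : ZMod p) * Q ∞ ((x + (c : ℚ) / p : ℚ) : OnePoint ℚ) := by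
  unfold Bt
  refine sum_congr rfl fun c _ => ?_
  rw [mob_inf, mob_tr p hp]

/-- translations -/
lemma tr_P (hk : Sx_HK) (N' : ℕ) (nu : ℤ → ℂ) (P : OnePoint ℚ → OnePoint ℚ → ℂ)
    (hs : IsSym N' nu P) (h1 : nu 1 = 1) (r : ℚ) (k : ℤ) :
    P ∞ ((r + k : ℚ) : OnePoint ℚ) = P ∞ (r : OnePoint ℚ) := by
  have h := (hk 1 le_rfl N' nu P P hs h1 0).1 r k
  simpa [sgnPart] using h

/-- the symbol in the direction `-y`: the substitution `c ↦ -c` -/
lemma sum_w (p : ℕ) (hp : p ≠ 0) (w : DirichletCharacter ℂ p) (hw : w (-1) = -1) (U : ℚ → ℂ)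
    (hU : ∀ (r : ℚ) (k : ℤ), U (r + k) = U r) (x : ℚ) :
    ∑ c ∈ range p, w (c : ZMod p) * U (x - (c : ℚ) / p) =
      - ∑ c ∈ range p, w (c : ZMod p) * U (x + (c : ℚ) / p) := by
  have hp' : (p : ℚ) ≠ 0 := Nat.cast_ne_zero.2 hp
  have h := sum_neg p (fun c => w ((c : ℤ) : ZMod p) * U (x + (c : ℚ) / p)) (by
    intro c
    have e1 : (((c + p : ℤ)) : ZMod p) = ((c : ℤ) : ZMod p) := by simp
    have e2 : x + ((c + p : ℤ) : ℚ) / p = (x + (c : ℚ) / p) + ((1 : ℤ) : ℚ) := by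
      push_cast
      field_simp
      ring
    simp only [e1, e2, hU])
  have h3 : ∑ c ∈ range p, w (((-(c : ℤ) : ℤ)) : ZMod p) * U (x + ((-(c : ℤ) : ℤ) : ℚ) / p) =
      - ∑ c ∈ range p, w (c : ZMod p) * U (x - (c : ℚ) / p) := by
    rw [← sum_neg_distrib]
    refine sum_congr rfl fun c _ => ?_
    have e1 : (((-(c : ℤ) : ℤ)) : ZMod p) = (-1) * (c : ZMod p) := by
      push_cast
      ring
    have e2 : x + ((-(c : ℤ) : ℤ) : ℚ) / p = x - (c : ℚ) / p := by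
      push_cast
      ring
    rw [e1, map_mul, hw, e2]
    ring
  simp only [Int.cast_natCast] at h
  rw [← h]
  rw [h3]
  ring

end TWBAux

open TWBAux

theorem t_TWB : M_TWB := by
  intro tw2 hk hsym hnua hnb l g h' hG V p hp5 I _ N₀ s₀ h a nu P hyp hdep w hw r hr n0
  rcases isEmpty_or_nonempty I with hI | ⟨⟨i₀⟩⟩
  · exact ⟨n0, le_rfl, fun j _ i => (hI.false i).elim⟩
  have hpp : p.Prime := (hyp i₀).pp
  have hp0 : p ≠ 0 := hpp.ne_zero
  have _nz : NeZero p := ⟨hp0⟩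
  have hN1 : p ^ (s₀ + 1) * N₀ ≠ 0 := mul_ne_zero (pow_ne_zero _ hp0) (hyp i₀).N0
  have hN : p ^ (s₀ + 1) * N₀ * p ^ 2 ≠ 0 := mul_ne_zero hN1 (pow_ne_zero _ hp0)
  have hdvd1 : ((p * N₀ : ℕ) : ℤ) ∣ ((p ^ (s₀ + 1) * N₀ : ℕ) : ℤ) := by
    refine Int.natCast_dvd_natCast.2 (Nat.mul_dvd_mul_right (dvd_pow_self p (Nat.succ_ne_zero _)) N₀)
  have hper1 : ∀ i (d d' : ℤ), ((p ^ (s₀ + 1) * N₀ : ℕ) : ℤ) ∣ d - d' → nu i d = nu i d' :=
    fun i d d' hd => (hyp i).nuper d d' (hdvd1.trans hd)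
  have hS : ∀ i, IsSym (p ^ (s₀ + 1) * N₀) (nu i) (sgnPart (-1) (P i 0)) := fun i =>
    (hk 1 le_rfl _ (nu i) (P i 0) (P i 0) ((hyp i).sym 0) (hyp i).nu1 (-1)).2.1
  have hW : ∀ i (y : ℚ) (k : ℤ), sgnPart (-1) (P i 0) ∞ ((y + k : ℚ) : OnePoint ℚ) =
      sgnPart (-1) (P i 0) ∞ (y : OnePoint ℚ) := fun i =>
    (hk 1 le_rfl _ (nu i) (P i 0) (P i 0) ((hyp i).sym 0) (hyp i).nu1 (-1)).1
  have hPt : ∀ i (y : ℚ) (k : ℤ), P i 0 ∞ ((y + k : ℚ) : OnePoint ℚ) =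
      P i 0 ∞ (y : OnePoint ℚ) := fun i y k =>
    tr_P hk _ (nu i) (P i 0) ((hyp i).sym 0) (hyp i).nu1 y k
  have hodd : ∀ i (y : ℚ), sgnPart (-1) (P i 0) ∞ ((-y : ℚ) : OnePoint ℚ) =
      - sgnPart (-1) (P i 0) ∞ (y : OnePoint ℚ) := by
    intro i y
    rw [sgn_inf, sgn_inf, neg_neg]
    ring
  obtain ⟨n, hn, hfin⟩ := tw2 l g h' hG V p hpp hp5 (hyp i₀).vp I (p ^ (s₀ + 1) * N₀ * p ^ 2) hN
    (fun i d => nu i d * (w⁻¹ (d : ZMod p)) ^ 2)
    (by
      intro i d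
      rw [map_mul, map_pow]
      exact mul_le_one' ((hyp i).nuv d) (pow_le_one' (chi_val V p w⁻¹ _) 2))
    (by
      intro i
      simp [(hyp i).nu1])
    (by
      intro i d d' hd
      have e1 : nu i d = nu i d' := hper1 i d d' (Dvd.dvd.trans (by
        push_cast
        exact Dvd.intro _ rfl) hd)
      have e2 : (d : ZMod p) = (d' : ZMod p) := by
        rw [ZMod.intCast_eq_intCast_iff_dvd_sub]
        refine (dvd_sub_comm).1 (Dvd.dvd.trans ?_ hd)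
        push_cast
        exact Dvd.dvd.mul_left (dvd_pow_self _ two_ne_zero) _
      simp only [e1, e2])
    (by
      intro i d
      exact (hnua p V N₀ s₀ (h i) (a i) (nu i) (P i) (-1) (hyp i) d).mul
        ((chi_alg p w⁻¹ _).pow 2))
    (fun i => Bt p w (sgnPart (-1) (P i 0)))
    (fun i => hsym p hpp _ hN1 (nu i) (hyp i).nu1 (hper1 i) _ (hS i) w)
    (by
      intro i x
      rw [Bt_inf p hp0]
      refine alg_sum _ _ fun c => ?_
      rw [sgn_inf]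
      exact (chi_alg p w _).mul (((hyp i).alg _ _).sub ((hyp i).alg _ _)))
    (by
      intro i x
      rw [Bt_inf p hp0, Bt_inf p hp0]
      have h1 := sum_w p hp0 w hw (fun y : ℚ => sgnPart (-1) (P i 0) ∞ (y : OnePoint ℚ)) (hW i) x
      have h2 : ∑ c ∈ range p, w (c : ZMod p) *
          sgnPart (-1) (P i 0) ∞ ((-x + (c : ℚ) / p : ℚ) : OnePoint ℚ) =
          - ∑ c ∈ range p, w (c : ZMod p) *
            sgnPart (-1) (P i 0) ∞ ((x - (c : ℚ) / p : ℚ) : OnePoint ℚ) := by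
        rw [← sum_neg_distrib]
        refine sum_congr rfl fun c _ => ?_
        have e : (-x + (c : ℚ) / p : ℚ) = -(x - (c : ℚ) / p) := by ring
        rw [e, hodd]
        ring
      rw [h2, h1, neg_neg])
    (by
      intro i x
      simp only [Bt_inf p hp0]
      rw [sum_comm]
      refine sum_eq_zero fun c _ => ?_
      rw [← mul_sum]
      have h0 : ∑ k ∈ range l, sgnPart (-1) (P i 0) ∞
          ((x + (k : ℚ) / l + (c : ℚ) / p : ℚ) : OnePoint ℚ) = 0 := by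
        simp only [sgn_inf]
        rw [sum_sub_distrib]
        have h1 : ∑ k ∈ range l, P i 0 ∞ ((x + (k : ℚ) / l + (c : ℚ) / p : ℚ) : OnePoint ℚ) = 0 := by
          have := hdep i (x + (c : ℚ) / p)
          rw [← this]
          refine sum_congr rfl fun k _ => ?_
          rw [show x + (k : ℚ) / l + (c : ℚ) / p = x + (c : ℚ) / p + (k : ℚ) / l by ring]
        have h2 : ∑ k ∈ range l, P i 0 ∞
            ((-(x + (k : ℚ) / l + (c : ℚ) / p) : ℚ) : OnePoint ℚ) = 0 := by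
          have := hdep i (-(x + (c : ℚ) / p) - ((l : ℚ) - 1) / l)
          rw [← this, ← sum_range_reflect]
          refine sum_congr rfl fun k hk' => ?_
          have hkl : k < l := mem_range.1 hk'
          have hc : ((l - 1 - k : ℕ) : ℚ) = (l : ℚ) - 1 - k := by
            rw [Nat.cast_sub (by omega), Nat.cast_sub (by omega)]
            simp
          rw [hc]
          congr 2
          ring
        rw [h1, h2, sub_zero]
      rw [h0, mul_zero])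
    (by
      intro i N' hN' hd
      exact hnb p V N₀ s₀ (h i) (a i) (nu i) (P i) (hyp i) w hw N' hN'
        ((Dvd.intro _ rfl).trans hd))
    r hr n0
  refine ⟨n, hn, fun j hj i ψ hψ1 hψ2 => ?_⟩
  have hv := hfin j hj i ψ hψ1 hψ2
  have hm0 : l ^ (n + j) ≠ 0 := by
    rcases hG with ⟨hl, -, -⟩ | ⟨hl, -, -⟩ <;> rw [hl] <;> positivity
  have hm0' : ((l ^ (n + j) : ℕ) : ℚ) ≠ 0 := Nat.cast_ne_zero.2 hm0
  -- the sum of the odd part
  set S : ℂ := ∑ b ∈ range (l ^ (n + j)), ∑ c ∈ range p, ψ b * w (c : ZMod p) *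
      P i 0 ∞ (((b : ℚ) / (l : ℚ) ^ (n + j) + (c : ℚ) / p : ℚ) : OnePoint ℚ) with hSdef
  have hS' : ∑ b ∈ range (l ^ (n + j)), ∑ c ∈ range p, ψ b * w (c : ZMod p) *
      P i 0 ∞ ((-((b : ℚ) / (l : ℚ) ^ (n + j) + (c : ℚ) / p) : ℚ) : OnePoint ℚ) = - S := by
    have hin : ∀ b : ℕ, ∑ c ∈ range p, ψ b * w (c : ZMod p) *
        P i 0 ∞ ((-((b : ℚ) / (l : ℚ) ^ (n + j) + (c : ℚ) / p) : ℚ) : OnePoint ℚ) =
        - ∑ c ∈ range p, ψ b * w (c : ZMod p) *
          P i 0 ∞ ((-((b : ℚ) / (l : ℚ) ^ (n + j)) + (c : ℚ) / p : ℚ) : OnePoint ℚ) := by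
      intro b
      have h1 := sum_w p hp0 w hw (fun y : ℚ => P i 0 ∞ (y : OnePoint ℚ)) (hPt i)
        (-((b : ℚ) / (l : ℚ) ^ (n + j)))
      have h2 := congrArg (fun z => ψ b * z) h1
      simp only [mul_neg, mul_sum] at h2
      simp only [mul_assoc]
      rw [← h2]
      refine sum_congr rfl fun c _ => ?_
      congr 3
      congr 1
      ring
    rw [sum_congr rfl fun b _ => hin b, sum_neg_distrib, hSdef]
    congr 1
    have h := sum_neg (l ^ (n + j)) (fun b : ℤ => ∑ c ∈ range p,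
      ψ ((b : ℤ) : ZMod (l ^ (n + j))) * w (c : ZMod p) *
      P i 0 ∞ (((b : ℚ) / (l : ℚ) ^ (n + j) + (c : ℚ) / p : ℚ) : OnePoint ℚ)) (by
      intro b
      have e1 : (((b + (l ^ (n + j) : ℕ) : ℤ)) : ZMod (l ^ (n + j))) =
          ((b : ℤ) : ZMod (l ^ (n + j))) := by
        rw [Int.cast_add, Int.cast_natCast, ZMod.natCast_self, add_zero]
      have e2 : ∀ c : ℕ, ((b + (l ^ (n + j) : ℕ) : ℤ) : ℚ) / (l : ℚ) ^ (n + j) + (c : ℚ) / p =
          ((b : ℚ) / (l : ℚ) ^ (n + j) + (c : ℚ) / p) + ((1 : ℤ) : ℚ) := by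
        intro c
        have hl' : (l : ℚ) ^ (n + j) ≠ 0 := by
          have := hm0'
          push_cast at this
          exact this
        have : ((b + (l ^ (n + j) : ℕ) : ℤ) : ℚ) / (l : ℚ) ^ (n + j) =
            (b : ℚ) / (l : ℚ) ^ (n + j) + 1 := by
          push_cast
          rw [add_div, div_self hl']
        rw [this]
        push_cast
        ring
      refine sum_congr rfl fun c _ => ?_
      rw [e1, e2, hPt])
    simp only [Int.cast_natCast] at h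
    rw [← h]
    refine sum_congr rfl fun b _ => ?_
    refine sum_congr rfl fun c _ => ?_
    have e1 : ψ (((-(b : ℤ) : ℤ)) : ZMod (l ^ (n + j))) = ψ (b : ZMod (l ^ (n + j))) := by
      rw [show (((-(b : ℤ) : ℤ)) : ZMod (l ^ (n + j))) = (-1) * (b : ZMod (l ^ (n + j))) by
        push_cast; ring, map_mul, hψ1, one_mul]
    have e2 : ((-(b : ℤ) : ℤ) : ℚ) / (l : ℚ) ^ (n + j) + (c : ℚ) / p =
        -((b : ℚ) / (l : ℚ) ^ (n + j)) + (c : ℚ) / p := by
      push_cast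
      ring
    rw [e1, e2]
  have hsum : ∑ b ∈ range (l ^ (n + j)), ψ b *
      Bt p w (sgnPart (-1) (P i 0)) ∞ (((b : ℚ) / (l : ℚ) ^ (n + j) : ℚ) : OnePoint ℚ) = 2 * S := by
    have h1 : ∀ b : ℕ, ψ b *
        Bt p w (sgnPart (-1) (P i 0)) ∞ (((b : ℚ) / (l : ℚ) ^ (n + j) : ℚ) : OnePoint ℚ) =
        ∑ c ∈ range p, ψ b * w (c : ZMod p) *
          P i 0 ∞ (((b : ℚ) / (l : ℚ) ^ (n + j) + (c : ℚ) / p : ℚ) : OnePoint ℚ) -
        ∑ c ∈ range p, ψ b * w (c : ZMod p) *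
          P i 0 ∞ ((-((b : ℚ) / (l : ℚ) ^ (n + j) + (c : ℚ) / p) : ℚ) : OnePoint ℚ) := by
      intro b
      rw [Bt_inf p hp0, mul_sum, ← sum_sub_distrib]
      refine sum_congr rfl fun c _ => ?_
      rw [sgn_inf]
      ring
    rw [sum_congr rfl fun b _ => h1 b, sum_sub_distrib, hS', hSdef]
    ring
  have hv' : 1 ≤ V.valuation (2 * S) := by
    rw [← hsum]
    exact hv
  rw [map_mul] at hv'
  have hv2 : V.valuation (2 : ℂ) ≤ 1 := by
    rw [ValuationSubring.valuation_le_one_iff]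
    exact ofNat_mem V 2
  calc (1 : _) ≤ V.valuation 2 * V.valuation S := hv'
    _ ≤ 1 * V.valuation S := mul_le_mul_left hv2 _
    _ = V.valuation S := one_mul _

end

end Pool.Agent.TWB
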