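import Pool.Agent.TWB.St

/-!
# TWB, module NB: the twist is not zero on closed cycles
-/

set_option autoImplicit false

namespace Pool.Agent.TWB

open _root_.MU3 Pool.Agent.MuSym Pool.Agent.MUXH OnePoint Finset

noncomputable section

namespace NBAux

lemma val_char_le {p : ℕ} [NeZero p] (V : ValuationSubring ℂ) (χ : DirichletCharacter ℂ p)
    (x : ZMod p) : V.valuation (χ x) ≤ 1 := by
  by_cases hx : IsUnit x
  · have h1 : (χ x) ^ Fintype.card (ZMod p)ˣ = 1 := by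
      obtain ⟨u, rfl⟩ := hx
      rw [← map_pow, ← Units.val_pow_eq_pow_val, pow_card_eq_one, Units.val_one, map_one]
    have h2 : V.valuation (χ x) ^ Fintype.card (ZMod p)ˣ = 1 := by
      rw [← map_pow, h1, map_one]
    by_contra h
    push Not at h
    have h3 := one_lt_pow₀ h (n := Fintype.card (ZMod p)ˣ) Fintype.card_ne_zero
    rw [h2] at h3
    exact lt_irrefl _ h3
  · rw [MulChar.map_nonunit χ hx, map_zero]
    exact zero_le_one

lemma mob_inf (a b c d : ℤ) (hc : c ≠ 0) :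
    mob a b c d ∞ = (((a : ℚ) / c : ℚ) : OnePoint ℚ) := by
  show (if c = 0 then ∞ else (((a : ℚ) / c : ℚ) : OnePoint ℚ)) = _
  rw [if_neg hc]

lemma mob_inf0 (a b d : ℤ) : mob a b 0 d ∞ = ∞ := by
  show (if (0 : ℤ) = 0 then ∞ else (((a : ℚ) / (0 : ℤ) : ℚ) : OnePoint ℚ)) = _
  rw [if_pos rfl]

lemma mob_tr (p c : ℕ) (hp : p ≠ 0) (y : ℚ) :
    mob p c 0 p (y : OnePoint ℚ) = ((y + (c : ℚ) / p : ℚ) : OnePoint ℚ) := by
  have hp' : (p : ℚ) ≠ 0 := Nat.cast_ne_zero.2 hp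
  show (if ((0 : ℤ) : ℚ) * y + ((p : ℤ) : ℚ) = 0 then ∞ else
    (((((p : ℤ) : ℚ) * y + ((c : ℤ) : ℚ)) / (((0 : ℤ) : ℚ) * y + ((p : ℤ) : ℚ)) : ℚ) :
      OnePoint ℚ)) = _
  have e : ((0 : ℤ) : ℚ) * y + ((p : ℤ) : ℚ) = p := by push_cast; ring
  rw [e, if_neg hp']
  congr 1
  push_cast
  field_simp

lemma self_zero {N : ℕ} {nu : ℤ → ℂ} {P : OnePoint ℚ → OnePoint ℚ → ℂ} (h : IsSym N nu P)
    (x : OnePoint ℚ) : P x x = 0 := by
  have := h.add x x x
  exact left_eq_add.1 this.symm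

end NBAux

open NBAux

theorem t_NB : M_NB := by
  intro HK BD SET REL H1G UPR p V N₀ s₀ h a nu P H w hw N' hN' hdvd
  by_contra hcon
  push Not at hcon
  have hp := H.pp
  have hp0 : p ≠ 0 := hp.ne_zero
  have hpQ : (p : ℚ) ≠ 0 := Nat.cast_ne_zero.2 hp0
  have : NeZero p := ⟨hp0⟩
  obtain ⟨W, hW⟩ : ∃ W : ℚ → ℂ, ∀ x, W x = sgnPart (-1) (P 0) ∞ (x : OnePoint ℚ) :=
    ⟨_, fun _ => rfl⟩
  obtain ⟨W1, hW1⟩ : ∃ W1 : ℚ → ℂ, ∀ x, W1 x = sgnPart (-1) (P 1) ∞ (x : OnePoint ℚ) :=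
    ⟨_, fun _ => rfl⟩
  have hper : ∀ x, W (x + 1) = W x := by
    intro x
    have h1 := (HK p hp.one_lt.le _ nu (P 0) (P 1) (H.sym 0) H.nu1 (-1)).1 x 1
    rw [hW, hW, ← h1]
    norm_num
  obtain ⟨hS1, hS2, -, hS4, -⟩ := SET N' hN'
  have hL2 : N' * p ^ 2 ≠ 0 := mul_ne_zero hN' (pow_ne_zero _ hp0)
  obtain ⟨hT1, -, hT3, -, -⟩ := SET (N' * p ^ 2) hL2
  have hpL : p ∣ N' * p ^ 2 := (dvd_pow_self p two_ne_zero).mul_left _
  -- the hypothesis on the twist
  have F2 : ∀ y, SS N' y →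
      V.valuation (∑ c ∈ range p, w (c : ZMod p) * W (y + (c : ℚ) / p)) < 1 := by
    intro y hy
    obtain ⟨α, β, γ, δ, h1, h2, h3, h4, rfl⟩ := hS2 y hy
    have h5 := hcon α β γ δ h1 h2 h3
    rw [mob_inf α β γ δ h4] at h5
    have e : Bt p w (sgnPart (-1) (P 0)) ∞ (((α : ℚ) / γ : ℚ) : OnePoint ℚ) =
        ∑ c ∈ range p, w (c : ZMod p) * W ((α : ℚ) / γ + (c : ℚ) / p) := by
      unfold Bt
      refine Finset.sum_congr rfl fun c _ => ?_
      rw [mob_tr p c hp0, mob_inf0, hW]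
    rw [e] at h5
    exact h5
  have F3 : ∀ y, SS (N' * p ^ 2) y →
      V.valuation (∑ u ∈ range p, W (y + (u : ℚ) / p) - p * W y) < 1 := by
    intro y hy
    rw [← REL p hp w hw W hper y]
    refine Valuation.map_sum_lt _ one_ne_zero fun s _ => ?_
    rw [map_mul]
    have h1 := hS4 p hp y s hy
    have h2 := F2 _ h1
    have h3 := val_char_le V w⁻¹ (s : ZMod p)
    exact mul_lt_one_of_nonneg_of_lt_one_right h3 zero_le' (by
      simpa using h2)
  have F4 : ∀ x, SS (N' * p ^ 2) x → V.valuation (W1 x - p * W (x / p)) < 1 := by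
    intro x hx
    have h1 : SS (N' * p ^ 2) (x / p) := by
      have := hT3 p hp hpL x 0 1 hx
      simpa using this
    have h2 := F3 _ h1
    have h3 : ∑ u ∈ range p, W (x / p + (u : ℚ) / p) = W1 x := by
      rw [hW1, ← (UPR p V N₀ s₀ h a nu P H).1 x]
      refine Finset.sum_congr rfl fun u _ => ?_
      rw [hW, ← add_div]
    rw [h3] at h2
    exact h2
  have F5 : ∀ x, SS (N' * p ^ 2) x →
      V.valuation (a * W x - p * ∑ j ∈ range (p ^ (h - 1)),
        W (((x + j) / (p : ℚ) ^ (h - 1)) / p)) < 1 := by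
    intro x hx
    have h1 : a * W x - p * ∑ j ∈ range (p ^ (h - 1)), W (((x + j) / (p : ℚ) ^ (h - 1)) / p) =
        ∑ j ∈ range (p ^ (h - 1)), (W1 ((x + j) / (p : ℚ) ^ (h - 1)) -
          p * W (((x + j) / (p : ℚ) ^ (h - 1)) / p)) := by
      rw [Finset.sum_sub_distrib, ← Finset.mul_sum, hW x, ← (UPR p V N₀ s₀ h a nu P H).2 x]
      congr 1
      exact Finset.sum_congr rfl fun j _ => (hW1 _).symm
    rw [h1]
    refine Valuation.map_sum_lt _ one_ne_zero fun j _ => ?_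
    apply F4
    have := hT3 p hp hpL x j (h - 1) hx
    simpa using this
  obtain ⟨k, hk⟩ := BD p V N₀ s₀ h a nu P (-1) H
  have F6 : ∀ x, V.valuation (p ^ k * W x) ≤ 1 := by
    intro x
    rw [hW]
    unfold sgnPart
    have e : (p : ℂ) ^ k * (P 0 ∞ (x : OnePoint ℚ) +
        -1 * P 0 (mob (-1) 0 0 1 ∞) (mob (-1) 0 0 1 (x : OnePoint ℚ))) =
        (p : ℂ) ^ k * P 0 ∞ (x : OnePoint ℚ) -
        (p : ℂ) ^ k * P 0 (mob (-1) 0 0 1 ∞) (mob (-1) 0 0 1 (x : OnePoint ℚ)) := by ring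
    rw [e]
    exact (Valuation.map_sub _ _ _).trans (max_le (hk _ _ _) (hk _ _ _))
  have hvp1 : ∀ e : ℕ, V.valuation ((p : ℂ) ^ e) ≤ 1 := by
    intro e
    rw [map_pow]
    exact pow_le_one' H.vp.le e
  have F7 : ∀ i : ℕ, i ≤ k + 1 → ∀ x, SS (N' * p ^ 2) x →
      V.valuation ((p : ℂ) ^ (k + 1 - i) * W x) < 1 := by
    intro i
    induction i with
    | zero =>
      intro _ x _
      rw [Nat.sub_zero, pow_succ', mul_assoc, map_mul]
      exact mul_lt_one_of_nonneg_of_lt_one_left zero_le' H.vp (F6 x)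
    | succ i ih =>
      intro hi x hx
      obtain ⟨e, he⟩ : ∃ e, e = k + 1 - (i + 1) := ⟨_, rfl⟩
      have he1 : k + 1 - i = e + 1 := by omega
      rw [← he]
      have h1 := ih (by omega)
      rw [he1] at h1
      have h2 : (p : ℂ) ^ e * (a * W x) =
          (p : ℂ) ^ e * (a * W x - p * ∑ j ∈ range (p ^ (h - 1)),
            W (((x + j) / (p : ℚ) ^ (h - 1)) / p)) +
          ∑ j ∈ range (p ^ (h - 1)), (p : ℂ) ^ (e + 1) *
            W (((x + j) / (p : ℚ) ^ (h - 1)) / p) := by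
        rw [← Finset.mul_sum]
        ring
      have h3 : V.valuation ((p : ℂ) ^ e * (a * W x)) < 1 := by
        rw [h2]
        refine Valuation.map_add_lt _ ?_ ?_
        · rw [map_mul]
          exact mul_lt_one_of_nonneg_of_lt_one_right (hvp1 e) zero_le' (F5 x hx)
        · refine Valuation.map_sum_lt _ one_ne_zero fun j _ => ?_
          apply h1
          have h4 := hT3 p hp hpL x j (h - 1) hx
          have h5 := hT3 p hp hpL _ 0 1 h4
          simpa using h5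
      rw [map_mul, map_mul, H.va, one_mul, ← map_mul] at h3
      exact h3
  have F8 : ∀ x, SS (N' * p ^ 2) x → V.valuation (W x) < 1 := by
    intro x hx
    have := F7 (k + 1) le_rfl x hx
    simpa using this
  obtain ⟨α, β, γ, δ, h1, h2, h3, h4⟩ := H1G p V N₀ s₀ h a nu P (-1) H (N' * p ^ 2) hL2
    (hdvd.mul_right _)
  have e1 : (((-1 : ℤ)) : ℂ) = -1 := by norm_num
  rw [e1] at h4
  by_cases hγ : γ = 0
  · rw [hγ, mob_inf0] at h4
    have h5 : sgnPart (-1) (P 0) ∞ ∞ = 0 := by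
      unfold sgnPart
      rw [self_zero (H.sym 0), self_zero (H.sym 0), mul_zero, add_zero]
    rw [h5, map_zero] at h4
    exact absurd h4 (not_le.2 zero_lt_one)
  · rw [mob_inf α β γ δ hγ, ← hW] at h4
    exact absurd h4 (not_le.2 (F8 _ (hT1 α β γ δ h1 h2 h3 hγ)))

end

end Pool.Agent.TWB
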