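import Pool.Agent.TWB.St

set_option autoImplicit false

open _root_.MU3 Pool.Agent.MuSym Pool.Agent.MUXH OnePoint Finset

namespace Pool.Agent.TWB

namespace NUAAux

/-- two equal powers with different exponents make a number algebraic -/
theorem alg_of_pow {z : ℂ} {k k' : ℕ} (h : k < k') (e : z ^ k = z ^ k') : IsAlgebraic ℚ z := by
  refine ⟨Polynomial.X ^ k' - Polynomial.X ^ k, ?_, ?_⟩
  · intro h0
    have h1 : (Polynomial.X ^ k' : Polynomial ℚ) = Polynomial.X ^ k := sub_eq_zero.1 h0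
    have h2 := congrArg Polynomial.natDegree h1
    rw [Polynomial.natDegree_X_pow, Polynomial.natDegree_X_pow] at h2
    omega
  · simp [e]

end NUAAux

theorem t_NUA : S_NUA := by
  intro p V N₀ s₀ h a nu P s H d
  have hM : 0 < p * N₀ := Nat.mul_pos H.pp.pos (Nat.pos_of_ne_zero H.N0)
  have hpow : ∀ k : ℕ, nu (d ^ k) = nu d ^ k := by
    intro k
    induction k with
    | zero => rw [pow_zero, pow_zero, H.nu1]
    | succ k ih => rw [pow_succ, pow_succ, H.num, ih]
  have hfin : (Set.range fun k : ℕ => nu d ^ k).Finite := by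
    refine Set.Finite.subset (Set.Finite.image (fun j : ℕ => nu (j : ℤ))
      (Set.finite_lt_nat (p * N₀))) ?_
    rintro _ ⟨k, rfl⟩
    have hM' : ((p * N₀ : ℕ) : ℤ) ≠ 0 := by exact_mod_cast hM.ne'
    refine ⟨((d ^ k) % ((p * N₀ : ℕ) : ℤ)).toNat, ?_, ?_⟩
    · have h1 : 0 ≤ (d ^ k) % ((p * N₀ : ℕ) : ℤ) := Int.emod_nonneg _ hM'
      have h2 : (d ^ k) % ((p * N₀ : ℕ) : ℤ) < ((p * N₀ : ℕ) : ℤ) :=
        Int.emod_lt_of_pos _ (by exact_mod_cast hM)
      change ((d ^ k) % ((p * N₀ : ℕ) : ℤ)).toNat < p * N₀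
      omega
    · simp only
      rw [← hpow k, Int.toNat_of_nonneg (Int.emod_nonneg _ hM')]
      exact (H.nuper _ _ (Int.dvd_self_sub_emod)).symm
  have hninj : ¬ Function.Injective fun k : ℕ => nu d ^ k := by
    intro hinj
    exact Set.infinite_range_of_injective hinj hfin
  rw [Function.Injective] at hninj
  push Not at hninj
  obtain ⟨k, k', he, hne⟩ := hninj
  rcases lt_or_gt_of_ne hne with hlt | hlt
  · exact NUAAux.alg_of_pow hlt he
  · exact NUAAux.alg_of_pow hlt he.symm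

end Pool.Agent.TWB
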