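import Pool.Agent.TWB.St

/-!
# TWB, module REL: the relation for the double twist
-/

set_option autoImplicit false

open Finset

noncomputable section

namespace Pool.Agent.TWB

namespace RELAux

theorem sum_range_zmod (p : ℕ) [NeZero p] (f : ZMod p → ℂ) :
    ∑ s ∈ range p, f (s : ZMod p) = ∑ s : ZMod p, f s := by
  refine Finset.sum_nbij' (fun s => (s : ZMod p)) (fun s => s.val) ?_ ?_ ?_ ?_ ?_
  · intro a _
    exact mem_univ _
  · intro a _
    exact mem_range.2 (ZMod.val_lt a)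
  · intro a ha
    exact ZMod.val_cast_of_lt (mem_range.1 ha)
  · intro a _
    exact ZMod.natCast_zmod_val a
  · intro a _
    rfl

theorem per_nat (W : ℚ → ℂ) (h : ∀ x, W (x + 1) = W x) (x : ℚ) (k : ℕ) : W (x + k) = W x := by
  induction k with
  | zero => simp
  | succ k ih =>
    rw [Nat.cast_succ, ← add_assoc, h, ih]

theorem per_cast (p : ℕ) [NeZero p] (W : ℚ → ℂ) (h : ∀ x, W (x + 1) = W x) (x : ℚ) (n : ℕ) :
    W (x + (n : ℚ) / p) = W (x + (((n : ZMod p).val : ℕ) : ℚ) / p) := by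
  have hp : (p : ℚ) ≠ 0 := Nat.cast_ne_zero.2 (NeZero.ne p)
  rw [ZMod.val_natCast]
  have h1 : (n : ℚ) = ((n % p : ℕ) : ℚ) + p * ((n / p : ℕ) : ℚ) := by
    exact_mod_cast (Nat.mod_add_div n p).symm
  have h2 : x + (n : ℚ) / p = x + ((n % p : ℕ) : ℚ) / p + ((n / p : ℕ) : ℚ) := by
    rw [h1]
    field_simp
    ring
  rw [h2, per_nat W h]

theorem J0 (p : ℕ) [Fact p.Prime] (w : DirichletCharacter ℂ p) (hw : w (-1) = -1) :
    ∑ s : ZMod p, w⁻¹ s * w (0 - s) = 1 - (p : ℂ) := by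
  have h1 : ∀ s : ZMod p, w⁻¹ s * w (0 - s) = (if s = 0 then 1 else 0) - 1 := by
    intro s
    by_cases hs : s = 0
    · subst hs
      have h0 : w⁻¹ (0 : ZMod p) = 0 := MulChar.map_zero _
      rw [h0, zero_mul]
      simp
    · have h2 : (0 - s) = (-1) * s := by ring
      rw [h2, map_mul, hw, if_neg hs, MulChar.inv_apply' w s]
      have h3 : w s⁻¹ * w s = 1 := by
        rw [← map_mul, inv_mul_cancel₀ hs, map_one]
      linear_combination (-1 : ℂ) * h3
  rw [Finset.sum_congr rfl (fun s _ => h1 s), Finset.sum_sub_distrib, Finset.sum_ite_eq']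
  simp [ZMod.card]

theorem J1 (p : ℕ) [Fact p.Prime] (w : DirichletCharacter ℂ p) (hw : w (-1) = -1) :
    ∑ s : ZMod p, w⁻¹ s * w (1 - s) = 1 := by
  have hne : w⁻¹ ≠ 1 := by
    intro h
    have h1 : w = 1 := inv_eq_one.1 h
    rw [h1] at hw
    have h2 : (1 : DirichletCharacter ℂ p) (-1 : ZMod p) = 1 :=
      MulChar.one_apply (isUnit_one.neg)
    rw [h2] at hw
    have h3 : (1 : ℂ) ≠ -1 := by norm_num
    exact h3 hw
  have h := jacobiSum_nontrivial_inv hne
  rw [inv_inv] at h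
  have h4 : w⁻¹ (-1 : ZMod p) = -1 := by
    rw [MulChar.inv_apply' w (-1), inv_neg_one, hw]
  rw [h4, neg_neg] at h
  exact h

theorem Ju (p : ℕ) [Fact p.Prime] (w : DirichletCharacter ℂ p) (hw : w (-1) = -1) (u : ZMod p)
    (hu : u ≠ 0) : ∑ s : ZMod p, w⁻¹ s * w (u - s) = 1 := by
  rw [← J1 p w hw]
  symm
  refine Fintype.sum_equiv (Equiv.mulLeft₀ u hu) _ _ fun s => ?_
  have h2 : u - u * s = u * (1 - s) := by ring
  show w⁻¹ s * w (1 - s) = w⁻¹ (u * s) * w (u - u * s)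
  rw [h2, map_mul, map_mul, MulChar.inv_apply' w u]
  have h3 : w u⁻¹ * w u = 1 := by
    rw [← map_mul, inv_mul_cancel₀ hu, map_one]
  linear_combination (-(w⁻¹ s * w (1 - s))) * h3

end RELAux

open RELAux in
theorem t_REL : S_REL := by
  intro p hp w hw W hW x
  haveI : Fact p.Prime := ⟨hp⟩
  haveI : NeZero p := ⟨hp.ne_zero⟩
  set F : ZMod p → ℂ := fun u => W (x + ((u.val : ℕ) : ℚ) / p) with hF
  have hterm : ∀ s c : ℕ, W (x + (s : ℚ) / p + (c : ℚ) / p) = F ((s : ZMod p) + (c : ZMod p)) := by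
    intro s c
    have h1 : x + (s : ℚ) / p + (c : ℚ) / p = x + ((s + c : ℕ) : ℚ) / p := by
      rw [Nat.cast_add, add_div, add_assoc]
    rw [h1, per_cast p W hW x (s + c), hF]
    simp only [Nat.cast_add]
  have hL : ∑ s ∈ range p, w⁻¹ (s : ZMod p) *
      ∑ c ∈ range p, w (c : ZMod p) * W (x + (s : ℚ) / p + (c : ℚ) / p) =
      ∑ s : ZMod p, ∑ c : ZMod p, w⁻¹ s * (w c * F (s + c)) := by
    have h1 : ∀ s : ℕ, w⁻¹ (s : ZMod p) *
        ∑ c ∈ range p, w (c : ZMod p) * W (x + (s : ℚ) / p + (c : ℚ) / p) =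
        ∑ c : ZMod p, w⁻¹ (s : ZMod p) * (w c * F ((s : ZMod p) + c)) := by
      intro s
      rw [← Finset.mul_sum, ← sum_range_zmod p (fun c => w c * F ((s : ZMod p) + c))]
      congr 1
      exact Finset.sum_congr rfl fun c _ => by rw [hterm s c]
    rw [Finset.sum_congr rfl fun s _ => h1 s,
      sum_range_zmod p (fun s => ∑ c : ZMod p, w⁻¹ s * (w c * F (s + c)))]
  have hR : ∑ u ∈ range p, W (x + (u : ℚ) / p) = ∑ u : ZMod p, F u := by
    rw [← sum_range_zmod p F]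
    exact Finset.sum_congr rfl fun u _ => per_cast p W hW x u
  have hx : W x = F 0 := by
    rw [hF]
    simp
  have hre : ∀ s : ZMod p, ∑ c : ZMod p, w⁻¹ s * (w c * F (s + c)) =
      ∑ u : ZMod p, w⁻¹ s * w (u - s) * F u := by
    intro s
    refine Fintype.sum_equiv (Equiv.addLeft s) _ _ fun c => ?_
    simp only [Equiv.coe_addLeft]
    rw [add_sub_cancel_left, mul_assoc]
  have hJ : ∀ u : ZMod p, ∑ s : ZMod p, w⁻¹ s * w (u - s) = 1 - if u = 0 then (p : ℂ) else 0 := by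
    intro u
    by_cases hu : u = 0
    · subst hu
      rw [J0 p w hw, if_pos rfl]
    · rw [Ju p w hw u hu, if_neg hu, sub_zero]
  rw [hL, hR, hx, Finset.sum_congr rfl fun s _ => hre s, Finset.sum_comm]
  have h5 : ∀ u : ZMod p, ∑ s : ZMod p, w⁻¹ s * w (u - s) * F u =
      F u - if u = 0 then (p : ℂ) * F u else 0 := by
    intro u
    rw [← Finset.sum_mul, hJ u]
    by_cases hu : u = 0
    · rw [if_pos hu, if_pos hu]
      ring
    · rw [if_neg hu, if_neg hu]
      ring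
  rw [Finset.sum_congr rfl fun u _ => h5 u, Finset.sum_sub_distrib, Finset.sum_ite_eq']
  simp

end Pool.Agent.TWB
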