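import Pool.Agent.TWB.St

/-!
# TWB, module SET: the points of `Γ₁(L) ∞`
-/

set_option autoImplicit false

namespace Pool.Agent.TWB

open _root_.MU3 Pool.Agent.MuSym Pool.Agent.MUXH OnePoint Finset

namespace SETAux

/-- (i) -/
theorem of_mat (L : ℕ) (a b c d : ℤ) (h : a * d - b * c = 1) (hc : (L : ℤ) ∣ c)
    (hd : (L : ℤ) ∣ d - 1) (hc0 : c ≠ 0) : SS L ((a : ℚ) / c) := by
  refine ⟨a, c, ⟨d, -b, by linarith⟩, hc, ?_, hc0, rfl⟩
  have h1 : a - 1 = b * c - a * (d - 1) := by linarith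
  rw [h1]
  exact dvd_sub (Dvd.dvd.mul_left hc b) (Dvd.dvd.mul_left hd a)

/-- (ii) -/
theorem to_mat (L : ℕ) (x : ℚ) (hx : SS L x) : ∃ a b c d : ℤ, a * d - b * c = 1 ∧
    (L : ℤ) ∣ c ∧ (L : ℤ) ∣ d - 1 ∧ c ≠ 0 ∧ x = (a : ℚ) / c := by
  obtain ⟨a, c, ⟨u, v, huv⟩, hc, ha, hc0, hx⟩ := hx
  refine ⟨a, -v, c, u, by linarith, hc, ?_, hc0, hx⟩
  have h1 : u - 1 = (-v) * c - u * (a - 1) := by linarith
  rw [h1]
  exact dvd_sub (Dvd.dvd.mul_left hc (-v)) (Dvd.dvd.mul_left ha u)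

/-- A shift by a multiple of the modulus. -/
theorem coprime_add (a m t : ℤ) (h : IsCoprime a m) : IsCoprime (a + t * m) m := by
  obtain ⟨u, v, huv⟩ := h
  exact ⟨u, v - u * t, by linear_combination huv⟩

/-- (iii) -/
theorem scale (L p : ℕ) (hp : p.Prime) (hpL : p ∣ L) (x : ℚ) (t : ℤ) (j : ℕ) (hx : SS L x) :
    SS L ((x + t) / (p : ℚ) ^ j) := by
  obtain ⟨a, c, hac, hc, ha, hc0, rfl⟩ := hx
  have h1 : IsCoprime (a + t * c) c := coprime_add a c t hac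
  have hpc : (p : ℤ) ∣ c := dvd_trans (Int.natCast_dvd_natCast.2 hpL) hc
  have h2 : IsCoprime (a + t * c) (p : ℤ) := IsCoprime.of_isCoprime_of_dvd_right h1 hpc
  have hp0 : (p : ℤ) ≠ 0 := by exact_mod_cast hp.ne_zero
  refine ⟨a + t * c, (p : ℤ) ^ j * c, (h2.pow_right).mul_right h1, Dvd.dvd.mul_left hc _, ?_,
    mul_ne_zero (pow_ne_zero _ hp0) hc0, ?_⟩
  · have h3 : a + t * c - 1 = (a - 1) + t * c := by ring
    rw [h3]
    exact dvd_add ha (Dvd.dvd.mul_left hc t)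
  · have hcq : (c : ℚ) ≠ 0 := by exact_mod_cast hc0
    have hpq : (p : ℚ) ≠ 0 := by exact_mod_cast hp.ne_zero
    push_cast
    field_simp

/-- (iv) -/
theorem shift (L p : ℕ) (hp : p.Prime) (x : ℚ) (t : ℤ) (hx : SS (L * p ^ 2) x) :
    SS L (x + (t : ℚ) / p) := by
  obtain ⟨a, c, hac, ⟨e, he⟩, ha, hc0, rfl⟩ := hx
  have hLd : (L : ℤ) ∣ ((L * p ^ 2 : ℕ) : ℤ) := by
    push_cast
    exact Dvd.intro _ rfl
  have hc : c = (p : ℤ) * ((p : ℤ) * ((L : ℤ) * e)) := by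
    rw [he]
    push_cast
    ring
  have hpc1 : (p : ℤ) * ((L : ℤ) * e) ∣ c := ⟨(p : ℤ), by rw [hc]; ring⟩
  have h1 : IsCoprime (a + t * ((p : ℤ) * ((L : ℤ) * e))) ((p : ℤ) * ((L : ℤ) * e)) :=
    coprime_add a _ t (IsCoprime.of_isCoprime_of_dvd_right hac hpc1)
  have h2 : IsCoprime (a + t * ((p : ℤ) * ((L : ℤ) * e))) (p : ℤ) :=
    IsCoprime.of_isCoprime_of_dvd_right h1 (Dvd.intro _ rfl)
  have hcop : IsCoprime (a + t * ((p : ℤ) * ((L : ℤ) * e))) c := by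
    have h3 := h2.mul_right h1
    rwa [← hc] at h3
  refine ⟨a + t * ((p : ℤ) * ((L : ℤ) * e)), c, hcop, dvd_trans hLd ⟨e, he⟩, ?_, hc0, ?_⟩
  · have h3 : a + t * ((p : ℤ) * ((L : ℤ) * e)) - 1 = (a - 1) + (L : ℤ) * (t * (p * e)) := by
      ring
    rw [h3]
    exact dvd_add (dvd_trans hLd ha) (Dvd.intro _ rfl)
  · have hcq : (c : ℚ) ≠ 0 := by exact_mod_cast hc0
    have hpq : (p : ℚ) ≠ 0 := by exact_mod_cast hp.ne_zero
    have h4 : (c : ℚ) = (p : ℚ) * ((p : ℚ) * ((L : ℚ) * e)) := by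
      rw [hc]
      push_cast
      ring
    push_cast
    rw [div_add_div _ _ hcq hpq, div_eq_div_iff (mul_ne_zero hcq hpq) hcq]
    rw [h4]
    ring

end SETAux

theorem t_SET : S_SET := by
  intro L _
  refine ⟨fun a b c d h hc hd hc0 => SETAux.of_mat L a b c d h hc hd hc0,
    fun x hx => SETAux.to_mat L x hx,
    fun p hp hpL x t j hx => SETAux.scale L p hp hpL x t j hx,
    fun p hp x t hx => SETAux.shift L p hp x t hx, ?_⟩
  rintro L' x hL ⟨a, c, hac, hc, ha, hc0, hx⟩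
  have hL' : (L : ℤ) ∣ (L' : ℤ) := Int.natCast_dvd_natCast.2 hL
  exact ⟨a, c, hac, dvd_trans hL' hc, dvd_trans hL' ha, hc0, hx⟩

end Pool.Agent.TWB
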