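import Pool.Agent.TWB.St

/-! SYM: the twist of a symbol is a symbol. -/

namespace Pool.Agent.TWB

open _root_.MU3 Pool.Agent.MuSym OnePoint Finset

namespace SYMAux

theorem mob_infty (a b c d : ℤ) :
    mob a b c d ∞ = if c = 0 then ∞ else ((a / c : ℚ) : OnePoint ℚ) := rfl

theorem mob_coe (a b c d : ℤ) (r : ℚ) :
    mob a b c d (r : OnePoint ℚ) = if (c : ℚ) * r + d = 0 then ∞ else
      (((a * r + b) / (c * r + d) : ℚ) : OnePoint ℚ) := rfl

theorem mob_mob (A B C D a b c d : ℤ) (h1 : A * D - B * C ≠ 0) (h2 : a * d - b * c ≠ 0)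
    (x : OnePoint ℚ) : mob A B C D (mob a b c d x) =
      mob (A * a + B * c) (A * b + B * d) (C * a + D * c) (C * b + D * d) x := by
  have H1 : (A : ℚ) * D - B * C ≠ 0 := by exact_mod_cast h1
  have H2 : (a : ℚ) * d - b * c ≠ 0 := by exact_mod_cast h2
  -- a general point `(u : v)`
  have key : ∀ u v : ℚ, (u ≠ 0 ∨ v ≠ 0) →
      (if v = 0 then mob A B C D ∞ else mob A B C D ((u / v : ℚ) : OnePoint ℚ)) =
        if (C : ℚ) * u + D * v = 0 then ∞ else
          (((A * u + B * v) / (C * u + D * v) : ℚ) : OnePoint ℚ) := by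
    intro u v huv
    by_cases hv : v = 0
    · subst hv
      have hu : u ≠ 0 := by simpa using huv
      rw [if_pos rfl, mob_infty]
      by_cases hC : C = 0
      · subst hC; simp
      · have hC' : (C : ℚ) ≠ 0 := by exact_mod_cast hC
        rw [if_neg hC, if_neg (by simpa using ⟨hC, hu⟩)]
        congr 1
        simp only [mul_zero, add_zero]
        field_simp
    · rw [if_neg hv, mob_coe]
      have e1 : (C : ℚ) * (u / v) + D = (C * u + D * v) / v := by field_simp
      rw [e1]
      by_cases h0 : (C : ℚ) * u + D * v = 0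
      · rw [h0, if_pos (by simp), if_pos rfl]
      · rw [if_neg (by rw [div_eq_zero_iff]; tauto), if_neg h0]
        congr 1
        field_simp
  induction x using OnePoint.rec with
  | infty =>
    have h := key a c (by
      by_contra hcon
      push Not at hcon
      rw [hcon.1, hcon.2] at H2
      simp at H2)
    rw [mob_infty, mob_infty]
    by_cases hc : c = 0
    · subst hc
      rw [if_pos rfl]
      rw [if_pos (by simp)] at h
      rw [h]
      push_cast
      by_cases h5 : C * a + D * 0 = 0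
      · rw [if_pos h5, if_pos (by exact_mod_cast h5)]
      · rw [if_neg h5, if_neg (by exact_mod_cast h5)]
    · rw [if_neg hc]
      rw [if_neg (by exact_mod_cast hc)] at h
      rw [h]
      push_cast
      by_cases h5 : C * a + D * c = 0
      · rw [if_pos h5, if_pos (by exact_mod_cast h5)]
      · rw [if_neg h5, if_neg (by exact_mod_cast h5)]
  | coe r =>
    have h := key (a * r + b) (c * r + d) (by
      by_contra hcon
      push Not at hcon
      apply H2
      have e1 : (a : ℚ) * d - b * c = a * (c * r + d) - c * (a * r + b) := by ring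
      rw [e1, hcon.1, hcon.2]; ring)
    rw [mob_coe, mob_coe]
    have e3 : ((C * a + D * c : ℤ) : ℚ) * r + ((C * b + D * d : ℤ) : ℚ) =
        C * (a * r + b) + D * (c * r + d) := by push_cast; ring
    have e4 : ((A * a + B * c : ℤ) : ℚ) * r + ((A * b + B * d : ℤ) : ℚ) =
        A * (a * r + b) + B * (c * r + d) := by push_cast; ring
    rw [e3, e4, ← h]
    by_cases hc : (c : ℚ) * r + d = 0
    · rw [if_pos hc, if_pos hc]
    · rw [if_neg hc, if_neg hc]

theorem sum_range_eq (p : ℕ) [NeZero p] (H : ℤ → ℂ) :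
    ∑ j ∈ range p, H (j : ℤ) = ∑ z : ZMod p, H (z.val : ℤ) := by
  refine Finset.sum_nbij' (fun j => (j : ZMod p)) (fun z => z.val) ?_ ?_ ?_ ?_ ?_
  · intro j _; exact mem_univ _
  · intro z _; exact mem_range.2 (ZMod.val_lt z)
  · intro j hj; exact ZMod.val_natCast_of_lt (mem_range.1 hj)
  · intro z _; exact ZMod.natCast_zmod_val z
  · intro j hj
    rw [ZMod.val_natCast_of_lt (mem_range.1 hj)]

theorem periodic_eq (p : ℕ) (H : ℤ → ℂ) (hH : ∀ j, H (j + p) = H j) (a b : ℤ)
    (h : (a : ZMod p) = (b : ZMod p)) : H a = H b := by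
  have hd : (p : ℤ) ∣ a - b := by
    have h2 : ((a - b : ℤ) : ZMod p) = 0 := by push_cast; rw [h, sub_self]
    exact (ZMod.intCast_zmod_eq_zero_iff_dvd _ _).1 h2
  obtain ⟨k, hk⟩ := hd
  have hper : Function.Periodic H (p : ℤ) := hH
  have h3 := hper.int_mul k b
  rw [← h3]
  congr 1
  push_cast
  linarith [mul_comm (p : ℤ) k]

theorem sum_mul (p : ℕ) [NeZero p] (H : ℤ → ℂ) (hH : ∀ j, H (j + p) = H j) (u : ℤ)
    (hu : IsUnit (u : ZMod p)) :
    ∑ j ∈ range p, H ((j : ℤ) * u) = ∑ j ∈ range p, H (j : ℤ) := by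
  rw [sum_range_eq p (fun j => H (j * u)), sum_range_eq p H]
  obtain ⟨w, hw⟩ := hu
  refine Fintype.sum_equiv (Units.mulRight w) _ _ fun z => ?_
  apply periodic_eq p H hH
  push_cast
  rw [ZMod.natCast_zmod_val, ZMod.natCast_zmod_val, Units.mulRight_apply, hw]

end SYMAux

open SYMAux

theorem t_SYM : S_SYM := by
  intro p hp N hN nu hnu1 hper Q hQ w
  haveI : Fact p.Prime := ⟨hp⟩
  have hp0 : (p : ℤ) ≠ 0 := by exact_mod_cast hp.ne_zero
  refine ⟨?_, ?_⟩
  · intro x y z
    simp only [Bt]
    rw [← Finset.sum_add_distrib]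
    refine Finset.sum_congr rfl fun c _ => ?_
    rw [← hQ.add (mob p c 0 p x) (mob p c 0 p y) (mob p c 0 p z)]
    ring
  · intro a b c d hdet hc x y
    obtain ⟨c0, hc0⟩ := hc
    obtain ⟨c2, hc2⟩ : ∃ c2 : ℤ, c2 = N * c0 := ⟨_, rfl⟩
    have hcc : c = (p : ℤ) ^ 2 * c2 := by rw [hc0, hc2]; push_cast; ring
    -- `d` is a unit modulo `p`
    have hdu : IsUnit ((d : ℤ) : ZMod p) := by
      have h1 : ((a * d - b * c : ℤ) : ZMod p) = 1 := by rw [hdet]; simp
      rw [hcc] at h1
      push_cast at h1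
      rw [ZMod.natCast_self] at h1
      refine IsUnit.of_mul_eq_one (a : ZMod p) ?_
      linear_combination h1
    obtain ⟨F, hF⟩ : ∃ F : ℤ → ℂ, F = fun s => Q (mob p s 0 p x) (mob p s 0 p y) := ⟨_, rfl⟩
    have hFper : ∀ s, F (s + p) = F s := by
      intro s
      have e : ∀ z, mob p (s + p) 0 p z = mob 1 1 0 1 (mob p s 0 p z) := by
        intro z
        rw [mob_mob _ _ _ _ _ _ _ _ (by norm_num) (by
          simp only [mul_zero, sub_zero]; exact mul_ne_zero hp0 hp0)]
        congr 1 <;> ring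
      simp only [hF]
      rw [e x, e y, hQ.equiv 1 1 0 1 (by norm_num) (dvd_zero _), hnu1, one_mul]
    have hterm : ∀ t : ℕ, Q (mob p t 0 p (mob a b c d x)) (mob p t 0 p (mob a b c d y)) =
        nu d * F (t * d ^ 2) := by
      intro t
      obtain ⟨t', ht'⟩ : ∃ t' : ℤ, t' = t * d ^ 2 := ⟨_, rfl⟩
      have e : ∀ z, mob p t 0 p (mob a b c d z) =
          mob (a + t * p * c2) (b - t * d * b * p * c2 - t * t' * c2) c (d - p * c2 * t')
            (mob p t' 0 p z) := by
        intro z
        rw [mob_mob _ _ _ _ _ _ _ _ (by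
          simp only [mul_zero, sub_zero]; exact mul_ne_zero hp0 hp0) (by rw [hdet]; norm_num),
          mob_mob _ _ _ _ _ _ _ _ (by
            rw [hcc, ht']
            have : (a + t * p * c2) * (d - p * c2 * (t * d ^ 2)) -
              (b - t * d * b * p * c2 - t * (t * d ^ 2) * c2) * ((p : ℤ) ^ 2 * c2) = 1 := by
              rw [hcc] at hdet
              linear_combination (1 - t * d * p * c2) * hdet
            rw [this]; norm_num) (by
          simp only [mul_zero, sub_zero]; exact mul_ne_zero hp0 hp0)]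
        rw [hcc] at hdet ⊢
        congr 1
        · ring
        · rw [ht']
          linear_combination (-(t : ℤ) * d) * hdet
        · ring
        · ring
      rw [e x, e y, hQ.equiv _ _ _ _ (by
            rw [hcc, ht']
            rw [hcc] at hdet
            linear_combination (1 - t * d * p * c2) * hdet) (by
            rw [hcc, hc2]; exact ⟨(p : ℤ) ^ 2 * c0, by ring⟩)]
      rw [hper (d - p * c2 * t') d (by rw [hc2]; exact ⟨-(p * c0 * t'), by ring⟩), ht', hF]
    simp only [Bt]
    have h1 : ∀ t ∈ range p, w (t : ZMod p) *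
        Q (mob p t 0 p (mob a b c d x)) (mob p t 0 p (mob a b c d y)) =
          (nu d * (w⁻¹ (d : ZMod p)) ^ 2) * (w (((t : ℤ) * d ^ 2 : ℤ) : ZMod p) *
            F ((t : ℤ) * d ^ 2)) := by
      intro t _
      rw [hterm t]
      have h2 : w⁻¹ (d : ZMod p) * w (d : ZMod p) = 1 := by
        rw [← MulChar.mul_apply, inv_mul_cancel, MulChar.one_apply hdu]
      have h3 : w (((t : ℤ) * d ^ 2 : ℤ) : ZMod p) = w (t : ZMod p) * w (d : ZMod p) ^ 2 := by
        push_cast
        rw [map_mul, map_pow]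
      rw [h3]
      linear_combination (-(nu d * w (t : ZMod p) * F ((t : ℤ) * d ^ 2)) *
        (w⁻¹ (d : ZMod p) * w (d : ZMod p) + 1)) * h2
    rw [Finset.sum_congr rfl h1, ← Finset.mul_sum]
    congr 1
    have h4 := sum_mul p (fun s => w ((s : ℤ) : ZMod p) * F s) (by
      intro j
      rw [hFper j]
      push_cast
      rw [ZMod.natCast_self, add_zero]) (d ^ 2) (by push_cast; exact hdu.pow 2)
    rw [h4]
    refine Finset.sum_congr rfl fun t _ => ?_
    rw [hF]
    simp

end Pool.Agent.TWB
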