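import Pool.Agent.TWB.St

/-!
# TWB, module UPR: the relation for `U_p`
-/

set_option autoImplicit false

namespace Pool.Agent.TWB

open _root_.MU3 Pool.Agent.MuSym Pool.Agent.MUXH OnePoint Finset

noncomputable section

namespace UPRAux

/-- Division with remainder in a sum. -/
theorem sum_mul (m : ℕ) (f : ℕ → ℂ) : ∀ n : ℕ,
    ∑ j ∈ range (m * n), f j = ∑ a ∈ range m, ∑ b ∈ range n, f (a + m * b) := by
  intro n
  induction n with
  | zero => simp
  | succ n ih =>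
    rw [Nat.mul_succ, Finset.sum_range_add, ih, ← Finset.sum_add_distrib]
    refine Finset.sum_congr rfl fun a _ => ?_
    rw [Finset.sum_range_succ, Nat.add_comm (m * n) a]

variable {p : ℕ} {V : ValuationSubring ℂ} {N₀ s₀ h : ℕ} {a : ℂ} {nu : ℤ → ℂ}
  {P : ℕ → OnePoint ℚ → OnePoint ℚ → ℂ}

/-- One step. -/
theorem step (hHK : Sx_HK) (hyp : HypA p V N₀ s₀ h a nu P (-1)) (i : ℕ) (r : ℚ) :
    ∑ j ∈ range p, sgnPart (-1) (P i) ∞ (((r + j) / p : ℚ) : OnePoint ℚ) =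
      sgnPart (-1) (P (i + 1)) ∞ (r : OnePoint ℚ) :=
  (hHK p hyp.pp.one_lt.le _ nu (P i) (P (i + 1)) (hyp.sym i) hyp.nu1 (-1)).2.2 hyp.nup
    (hyp.hec i) r

/-- Several steps. -/
theorem steps (hHK : Sx_HK) (hyp : HypA p V N₀ s₀ h a nu P (-1)) : ∀ (k : ℕ) (r : ℚ),
    sgnPart (-1) (P (k + 1)) ∞ (r : OnePoint ℚ) =
      ∑ j ∈ range (p ^ k), sgnPart (-1) (P 1) ∞ (((r + j) / (p : ℚ) ^ k : ℚ) : OnePoint ℚ) := by
  have hp : (p : ℚ) ≠ 0 := Nat.cast_ne_zero.2 hyp.pp.ne_zero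
  intro k
  induction k with
  | zero =>
    intro r
    simp
  | succ k ih =>
    intro r
    rw [← step hHK hyp (k + 1) r, pow_succ', sum_mul]
    refine Finset.sum_congr rfl fun j _ => ?_
    rw [ih]
    refine Finset.sum_congr rfl fun l _ => ?_
    congr 2
    push_cast
    field_simp
    ring

end UPRAux

open UPRAux in
/-- Module UPR. -/
theorem t_UPR : M_UPR := by
  intro hHK p V N₀ s₀ h a nu P hyp
  refine ⟨fun x => step hHK hyp 0 x, fun x => ?_⟩
  rw [← steps hHK hyp (h - 1) x, Nat.sub_add_cancel hyp.h1]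
  unfold sgnPart
  rw [hyp.per, hyp.per]
  ring

end

end Pool.Agent.TWB
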