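import Pool.Agent.TWR.TW4
import Pool.Agent.TWB.All

/-!
# TWB, all large levels (helper34; the proof is that of `m_TWB3`, which is helper88's proof of `t_TWB`)

`a_TWB4 : S_TWB4`: there is `n0` such that ALL levels `n ≥ n0` are good for all symbols of the family and all
even characters of conductor `l^n`.
-/

set_option autoImplicit false

namespace Pool.Agent.TWB

open _root_.MU3 Pool.Agent.MuSym Pool.Agent.MUXH OnePoint Finset

noncomputable section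

/-- TWB4: `S_TWB` for all large levels. -/
def S_TWB4 : Prop := ∀ (l g h' : ℕ) (_ : TWR.Gen l g h') (V : ValuationSubring ℂ) (p : ℕ)
  (_ : 5 ≤ p) (I : Type) [Finite I] (N₀ s₀ : ℕ) (h : I → ℕ) (a : I → ℂ) (nu : I → ℤ → ℂ)
  (P : I → ℕ → OnePoint ℚ → OnePoint ℚ → ℂ)
  (_ : ∀ i, HypA p V N₀ s₀ (h i) (a i) (nu i) (P i) (-1))
  (_ : ∀ i (x : ℚ), ∑ k ∈ range l, P i 0 ∞ ((x + (k : ℚ) / l : ℚ) : OnePoint ℚ) = 0)
  (w : DirichletCharacter ℂ p) (_ : w (-1) = -1),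
  ∃ n0 : ℕ, ∀ n, n0 ≤ n → ∀ i,
    ∀ ψ : DirichletCharacter ℂ (l ^ n), ψ (-1) = 1 →
    ψ (1 + (l : ZMod (l ^ n)) ^ (n - 1)) ≠ 1 →
    1 ≤ V.valuation (∑ b ∈ range (l ^ n), ∑ c ∈ range p, ψ b * w (c : ZMod p) *
      P i 0 ∞ (((b : ℚ) / (l : ℚ) ^ n + (c : ℚ) / p : ℚ) : OnePoint ℚ))

open TWBAux

theorem m_TWB4 (tw2 : TWR.S_TW4) (hk : Sx_HK) (hsym : S_SYM) (hnua : S_NUA) (hnb : S_NB) : S_TWB4 := by
  intro l g h' hG V p hp5 I _ N₀ s₀ h a nu P hyp hdep w hw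
  rcases isEmpty_or_nonempty I with hI | ⟨⟨i₀⟩⟩
  · exact ⟨0, fun n _ i => (hI.false i).elim⟩
  have hpp : p.Prime := (hyp i₀).pp
  have hp0 : p ≠ 0 := hpp.ne_zero
  have _nz : NeZero p := ⟨hp0⟩
  have hN1 : p ^ (s₀ + 1) * N₀ ≠ 0 := mul_ne_zero (pow_ne_zero _ hp0) (hyp i₀).N0
  have hN : p ^ (s₀ + 1) * N₀ * p ^ 2 ≠ 0 := mul_ne_zero hN1 (pow_ne_zero _ hp0)
  have hdvd1 : ((p * N₀ : ℕ) : ℤ) ∣ ((p ^ (s₀ + 1) * N₀ : ℕ) : ℤ) := by
    refine Int.natCast_dvd_natCast.2 (Nat.mul_dvd_mul_right (dvd_pow_self p (Nat.succ_ne_zero _)) N₀)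
  have hper1 : ∀ i (d d' : ℤ), ((p ^ (s₀ + 1) * N₀ : ℕ) : ℤ) ∣ d - d' → nu i d = nu i d' :=
    fun i d d' hd => (hyp i).nuper d d' (hdvd1.trans hd)
  have hS : ∀ i, IsSym (p ^ (s₀ + 1) * N₀) (nu i) (sgnPart (-1) (P i 0)) := fun i =>
    (hk 1 le_rfl _ (nu i) (P i 0) (P i 0) ((hyp i).sym 0) (hyp i).nu1 (-1)).2.1
  have hW : ∀ i (y : ℚ) (k : ℤ), sgnPart (-1) (P i 0) ∞ ((y + k : ℚ) : OnePoint ℚ) =
      sgnPart (-1) (P i 0) ∞ (y : OnePoint ℚ) := fun i =>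
    (hk 1 le_rfl _ (nu i) (P i 0) (P i 0) ((hyp i).sym 0) (hyp i).nu1 (-1)).1
  have hPt : ∀ i (y : ℚ) (k : ℤ), P i 0 ∞ ((y + k : ℚ) : OnePoint ℚ) =
      P i 0 ∞ (y : OnePoint ℚ) := fun i y k =>
    tr_P hk _ (nu i) (P i 0) ((hyp i).sym 0) (hyp i).nu1 y k
  have hodd : ∀ i (y : ℚ), sgnPart (-1) (P i 0) ∞ ((-y : ℚ) : OnePoint ℚ) =
      - sgnPart (-1) (P i 0) ∞ (y : OnePoint ℚ) := by
    intro i y
    rw [sgn_inf, sgn_inf, neg_neg]
    ring
  obtain ⟨C, hC⟩ := tw2 l g h' hG V p hpp hp5 (hyp i₀).vp I (p ^ (s₀ + 1) * N₀ * p ^ 2) hN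
    (fun i d => nu i d * (w⁻¹ (d : ZMod p)) ^ 2)
    (by
      intro i d
      rw [map_mul, map_pow]
      exact mul_le_one' ((hyp i).nuv d) (pow_le_one' (chi_val V p w⁻¹ _) 2))
    (by
      intro i
      simp [(hyp i).nu1])
    (by
      intro i d d' hd
      have e1 : nu i d = nu i d' := hper1 i d d' (Dvd.dvd.trans (by
        push_cast
        exact Dvd.intro _ rfl) hd)
      have e2 : (d : ZMod p) = (d' : ZMod p) := by
        rw [ZMod.intCast_eq_intCast_iff_dvd_sub]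
        refine (dvd_sub_comm).1 (Dvd.dvd.trans ?_ hd)
        push_cast
        exact Dvd.dvd.mul_left (dvd_pow_self _ two_ne_zero) _
      simp only [e1, e2])
    (by
      intro i d
      exact (hnua p V N₀ s₀ (h i) (a i) (nu i) (P i) (-1) (hyp i) d).mul
        ((chi_alg p w⁻¹ _).pow 2))
    (fun i => Bt p w (sgnPart (-1) (P i 0)))
    (fun i => hsym p hpp _ hN1 (nu i) (hyp i).nu1 (hper1 i) _ (hS i) w)
    (by
      intro i x
      rw [Bt_inf p hp0]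
      refine alg_sum _ _ fun c => ?_
      rw [sgn_inf]
      exact (chi_alg p w _).mul (((hyp i).alg _ _).sub ((hyp i).alg _ _)))
    (by
      intro i x
      rw [Bt_inf p hp0, Bt_inf p hp0]
      have h1 := sum_w p hp0 w hw (fun y : ℚ => sgnPart (-1) (P i 0) ∞ (y : OnePoint ℚ)) (hW i) x
      have h2 : ∑ c ∈ range p, w (c : ZMod p) *
          sgnPart (-1) (P i 0) ∞ ((-x + (c : ℚ) / p : ℚ) : OnePoint ℚ) =
          - ∑ c ∈ range p, w (c : ZMod p) *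
            sgnPart (-1) (P i 0) ∞ ((x - (c : ℚ) / p : ℚ) : OnePoint ℚ) := by
        rw [← sum_neg_distrib]
        refine sum_congr rfl fun c _ => ?_
        have e : (-x + (c : ℚ) / p : ℚ) = -(x - (c : ℚ) / p) := by ring
        rw [e, hodd]
        ring
      rw [h2, h1, neg_neg])
    (by
      intro i x
      simp only [Bt_inf p hp0]
      rw [sum_comm]
      refine sum_eq_zero fun c _ => ?_
      rw [← mul_sum]
      have h0 : ∑ k ∈ range l, sgnPart (-1) (P i 0) ∞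
          ((x + (k : ℚ) / l + (c : ℚ) / p : ℚ) : OnePoint ℚ) = 0 := by
        simp only [sgn_inf]
        rw [sum_sub_distrib]
        have h1 : ∑ k ∈ range l, P i 0 ∞ ((x + (k : ℚ) / l + (c : ℚ) / p : ℚ) : OnePoint ℚ) = 0 := by
          have := hdep i (x + (c : ℚ) / p)
          rw [← this]
          refine sum_congr rfl fun k _ => ?_
          rw [show x + (k : ℚ) / l + (c : ℚ) / p = x + (c : ℚ) / p + (k : ℚ) / l by ring]
        have h2 : ∑ k ∈ range l, P i 0 ∞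
            ((-(x + (k : ℚ) / l + (c : ℚ) / p) : ℚ) : OnePoint ℚ) = 0 := by
          have := hdep i (-(x + (c : ℚ) / p) - ((l : ℚ) - 1) / l)
          rw [← this, ← sum_range_reflect]
          refine sum_congr rfl fun k hk' => ?_
          have hkl : k < l := mem_range.1 hk'
          have hc : ((l - 1 - k : ℕ) : ℚ) = (l : ℚ) - 1 - k := by
            rw [Nat.cast_sub (by omega), Nat.cast_sub (by omega)]
            simp
          rw [hc]
          congr 2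
          ring
        rw [h1, h2, sub_zero]
      rw [h0, mul_zero])
    (by
      intro i N' hN' hd
      exact hnb p V N₀ s₀ (h i) (a i) (nu i) (P i) (hyp i) w hw N' hN'
        ((Dvd.intro _ rfl).trans hd))
    
  refine ⟨C, fun n hn i ψ hψ1 hψ2 => ?_⟩
  have hv := hC n hn i ψ hψ1 hψ2
  have hm0 : l ^ n ≠ 0 := by
    rcases hG with ⟨hl, -, -⟩ | ⟨hl, -, -⟩ <;> rw [hl] <;> positivity
  have hm0' : ((l ^ n : ℕ) : ℚ) ≠ 0 := Nat.cast_ne_zero.2 hm0
  -- the sum of the odd part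
  set S : ℂ := ∑ b ∈ range (l ^ n), ∑ c ∈ range p, ψ b * w (c : ZMod p) *
      P i 0 ∞ (((b : ℚ) / (l : ℚ) ^ n + (c : ℚ) / p : ℚ) : OnePoint ℚ) with hSdef
  have hS' : ∑ b ∈ range (l ^ n), ∑ c ∈ range p, ψ b * w (c : ZMod p) *
      P i 0 ∞ ((-((b : ℚ) / (l : ℚ) ^ n + (c : ℚ) / p) : ℚ) : OnePoint ℚ) = - S := by
    have hin : ∀ b : ℕ, ∑ c ∈ range p, ψ b * w (c : ZMod p) *
        P i 0 ∞ ((-((b : ℚ) / (l : ℚ) ^ n + (c : ℚ) / p) : ℚ) : OnePoint ℚ) =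
        - ∑ c ∈ range p, ψ b * w (c : ZMod p) *
          P i 0 ∞ ((-((b : ℚ) / (l : ℚ) ^ n) + (c : ℚ) / p : ℚ) : OnePoint ℚ) := by
      intro b
      have h1 := sum_w p hp0 w hw (fun y : ℚ => P i 0 ∞ (y : OnePoint ℚ)) (hPt i)
        (-((b : ℚ) / (l : ℚ) ^ n))
      have h2 := congrArg (fun z => ψ b * z) h1
      simp only [mul_neg, mul_sum] at h2
      simp only [mul_assoc]
      rw [← h2]
      refine sum_congr rfl fun c _ => ?_
      congr 3
      congr 1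
      ring
    rw [sum_congr rfl fun b _ => hin b, sum_neg_distrib, hSdef]
    congr 1
    have h := sum_neg (l ^ n) (fun b : ℤ => ∑ c ∈ range p,
      ψ ((b : ℤ) : ZMod (l ^ n)) * w (c : ZMod p) *
      P i 0 ∞ (((b : ℚ) / (l : ℚ) ^ n + (c : ℚ) / p : ℚ) : OnePoint ℚ)) (by
      intro b
      have e1 : (((b + (l ^ n : ℕ) : ℤ)) : ZMod (l ^ n)) =
          ((b : ℤ) : ZMod (l ^ n)) := by
        rw [Int.cast_add, Int.cast_natCast, ZMod.natCast_self, add_zero]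
      have e2 : ∀ c : ℕ, ((b + (l ^ n : ℕ) : ℤ) : ℚ) / (l : ℚ) ^ n + (c : ℚ) / p =
          ((b : ℚ) / (l : ℚ) ^ n + (c : ℚ) / p) + ((1 : ℤ) : ℚ) := by
        intro c
        have hl' : (l : ℚ) ^ n ≠ 0 := by
          have := hm0'
          push_cast at this
          exact this
        have : ((b + (l ^ n : ℕ) : ℤ) : ℚ) / (l : ℚ) ^ n =
            (b : ℚ) / (l : ℚ) ^ n + 1 := by
          push_cast
          rw [add_div, div_self hl']
        rw [this]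
        push_cast
        ring
      refine sum_congr rfl fun c _ => ?_
      rw [e1, e2, hPt])
    simp only [Int.cast_natCast] at h
    rw [← h]
    refine sum_congr rfl fun b _ => ?_
    refine sum_congr rfl fun c _ => ?_
    have e1 : ψ (((-(b : ℤ) : ℤ)) : ZMod (l ^ n)) = ψ (b : ZMod (l ^ n)) := by
      rw [show (((-(b : ℤ) : ℤ)) : ZMod (l ^ n)) = (-1) * (b : ZMod (l ^ n)) by
        push_cast; ring, map_mul, hψ1, one_mul]
    have e2 : ((-(b : ℤ) : ℤ) : ℚ) / (l : ℚ) ^ n + (c : ℚ) / p =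
        -((b : ℚ) / (l : ℚ) ^ n) + (c : ℚ) / p := by
      push_cast
      ring
    rw [e1, e2]
  have hsum : ∑ b ∈ range (l ^ n), ψ b *
      Bt p w (sgnPart (-1) (P i 0)) ∞ (((b : ℚ) / (l : ℚ) ^ n : ℚ) : OnePoint ℚ) = 2 * S := by
    have h1 : ∀ b : ℕ, ψ b *
        Bt p w (sgnPart (-1) (P i 0)) ∞ (((b : ℚ) / (l : ℚ) ^ n : ℚ) : OnePoint ℚ) =
        ∑ c ∈ range p, ψ b * w (c : ZMod p) *
          P i 0 ∞ (((b : ℚ) / (l : ℚ) ^ n + (c : ℚ) / p : ℚ) : OnePoint ℚ) -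
        ∑ c ∈ range p, ψ b * w (c : ZMod p) *
          P i 0 ∞ ((-((b : ℚ) / (l : ℚ) ^ n + (c : ℚ) / p) : ℚ) : OnePoint ℚ) := by
      intro b
      rw [Bt_inf p hp0, mul_sum, ← sum_sub_distrib]
      refine sum_congr rfl fun c _ => ?_
      rw [sgn_inf]
      ring
    rw [sum_congr rfl fun b _ => h1 b, sum_sub_distrib, hS', hSdef]
    ring
  have hv' : 1 ≤ V.valuation (2 * S) := by
    rw [← hsum]
    exact hv
  rw [map_mul] at hv'
  have hv2 : V.valuation (2 : ℂ) ≤ 1 := by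
    rw [ValuationSubring.valuation_le_one_iff]
    exact ofNat_mem V 2
  calc (1 : _) ≤ V.valuation 2 * V.valuation S := hv'
    _ ≤ 1 * V.valuation S := mul_le_mul_left hv2 _
    _ = V.valuation S := one_mul _


theorem a_TWB4 : S_TWB4 := m_TWB4 TWR.a_TW4 tx_HK t_SYM t_NUA a_NB

end

end Pool.Agent.TWB
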