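import Pool.Agent.MUX.StHX
import Pool.Agent.TWR.St2

/-!
# TWB: the twist of a CM symbol by an odd character modulo `p` is not zero modulo `p` on closed cycles; sums over characters of `l`-power conductor (MP_b78433_nt, Theorem C)

Hypotheses: `MUXH.HypA` (`Pool/Agent/MUX/StHX.lean`) with `s = -1`, for a finite family, depleted at `l`.
Final statement `S_TWB`: for infinitely many `n`, for all members `i` of the family and all even `ψ` of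
conductor `l^(n+j)`, `j < a`: `v(∑_b ∑_c ψ(b) w(c) P i 0 ∞ (b/l^(n+j) + c/p)) ≥ 1`.

Idea. `Q = P - P(-·)` is the odd part of the symbol, `B x y = ∑_(c mod p) w(c) Q(x + c/p, y + c/p)`, an
even symbol. If `B ∞ (g ∞)` were in the maximal ideal for all `g` in `Γ₁(L)`, then (`S_REL`)
`(U_p Q)(∞, y) ≡ p Q(∞, y/p)` for these `y = g ∞`, and `U_p^h Q = a Q`, `v a = 1`, would give
`v(Q(∞, y)) < 1`, against Theorem G (`HypA.G`). Then `TWR.S_TW2` for the symbols `B`.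

Module `XXX`: `theorem t_XXX : S_XXX` (or `M_XXX`: with other statements as hypotheses) in
`Pool/Agent/TWB/XXX.lean`. `mob` is `Pool.Agent.MuSym.mob`: `mob a b c d x = (a x + b)/(c x + d)`.
-/

set_option autoImplicit false

namespace Pool.Agent.TWB

open _root_.MU3 Pool.Agent.MuSym Pool.Agent.MUXH OnePoint Finset

noncomputable section

/-- the twist of a symbol by a character modulo `p` -/
def Bt (p : ℕ) (w : DirichletCharacter ℂ p) (Q : OnePoint ℚ → OnePoint ℚ → ℂ)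
    (x y : OnePoint ℚ) : ℂ :=
  ∑ c ∈ range p, w (c : ZMod p) * Q (mob p c 0 p x) (mob p c 0 p y)

/-- the points of `Γ₁(L) ∞` different from `∞` -/
def SS (L : ℕ) (x : ℚ) : Prop :=
  ∃ a c : ℤ, IsCoprime a c ∧ (L : ℤ) ∣ c ∧ (L : ℤ) ∣ a - 1 ∧ c ≠ 0 ∧ x = (a : ℚ) / c

/-- SET (110 lines), the points `Γ₁(L) ∞`. Proof. (i) `a d - b c = 1`, `L ∣ c`, `L ∣ d - 1`: `a` and `c` are coprime,
`a - 1 = b c - a (d - 1)`. (ii) `a`, `c` coprime: `a d - b c = 1` for some `b`, `d`; `d - 1 = b c - d (a - 1)` is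
divisible by `L`. (iii) `x = a/c`: `(x + t)/p^j = (a + t c)/(p^j c)`; `a + t c` is prime to `c`, so to `p` (`p ∣ L ∣ c`), so to
`p^j c`; `L ∣ a + t c - 1`. (iv) `x + t/p = (a + t c1 p)/c`, `c = p² c1`, `L ∣ c1`: a prime divisor of `c` and
`a + t c1 p` divides `p c1` (as `c = p · p c1`), so `a`: impossible (or: `IsCoprime (a + t c1 p) (p c1)` and
`c ∣ (p c1)²`); `L ∣ a + t c1 p - 1`. (v) clear. -/
def S_SET : Prop := ∀ (L : ℕ), L ≠ 0 →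
  (∀ a b c d : ℤ, a * d - b * c = 1 → (L : ℤ) ∣ c → (L : ℤ) ∣ d - 1 → c ≠ 0 →
    SS L ((a : ℚ) / c)) ∧
  (∀ x : ℚ, SS L x → ∃ a b c d : ℤ, a * d - b * c = 1 ∧ (L : ℤ) ∣ c ∧ (L : ℤ) ∣ d - 1 ∧ c ≠ 0 ∧
    x = (a : ℚ) / c) ∧
  (∀ (p : ℕ), p.Prime → p ∣ L → ∀ (x : ℚ) (t : ℤ) (j : ℕ), SS L x → SS L ((x + t) / (p : ℚ) ^ j)) ∧
  (∀ (p : ℕ), p.Prime → ∀ (x : ℚ) (t : ℤ), SS (L * p ^ 2) x → SS L (x + (t : ℚ) / p)) ∧
  (∀ (L' : ℕ) (x : ℚ), L ∣ L' → SS L' x → SS L x)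

/-- SYM (130 lines), the twist is a symbol. Proof. `add` is clear. Let `a d - b c = 1`, `N p² ∣ c`. For `t ∈ ℤ`
let `t' = t d²` and `a1 = a + t c/p`, `d1 = d - c t'/p`, `b1 = b + (t d - t' a)/p - t t' c/p²` (integers: `p² ∣ c` and
`t d - t d² a = - t d b c`). Then `a1 d1 - b1 c = 1` and `mob p t 0 p (mob a b c d x) = mob a1 b1 c d1 (mob p t' 0 p x)` for
all `x` in `OnePoint ℚ` (check `∞` (`c = 0` or not) and the points with `c r + d = 0` separately). `N ∣ c` and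
`d1 ≡ d` modulo `N` (`N p ∣ c`), so the term `t` is `w(t) nu(d) Q(x + t'/p, y + t'/p)`. `d` is prime to `p`
(`p ∣ c`), `w(t) = w(t') w⁻¹(d)²`, the function `t' ↦ w(t') Q(mob p t' 0 p x)(mob p t' 0 p y)` has period `p`
(`mob p (t + p) 0 p x = mob 1 1 0 1 (mob p t 0 p x)`, `nu 1 = 1`), and `t ↦ t d²` permutes the classes. -/
def S_SYM : Prop := ∀ (p : ℕ) (_ : p.Prime) (N : ℕ) (_ : N ≠ 0) (nu : ℤ → ℂ) (_ : nu 1 = 1)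
  (_ : ∀ d d' : ℤ, (N : ℤ) ∣ d - d' → nu d = nu d') (Q : OnePoint ℚ → OnePoint ℚ → ℂ)
  (_ : IsSym N nu Q) (w : DirichletCharacter ℂ p),
  IsSym (N * p ^ 2) (fun d => nu d * (w⁻¹ (d : ZMod p)) ^ 2) (Bt p w Q)

/-- REL (120 lines). Proof. Let `F u = W (x + u/p)`, `u ∈ ℤ`: it has period `p`. The left side is
`∑_s w⁻¹(s) ∑_c w(c) F(s + c) = ∑_u (∑_s w⁻¹(s) w(u - s)) F(u)` (sums over `ZMod p`; `F` as a function on `ZMod p`).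
For `u = 0`: `w⁻¹(s) w(-s) = w(-1) = -1` for `s ≠ 0`: the inner sum is `-(p - 1)`. For `u ≠ 0`: put `s = u s'`:
`w⁻¹(s) w(u - s) = w⁻¹(s') w(1 - s') = w(1/s' - 1)` for `s' ≠ 0`, and `1/s' - 1` runs through all classes except
`-1`: the inner sum is `∑_t w(t) - w(-1) = 0 + 1` (`w` is nontrivial: `w(-1) = -1 ≠ 1`;
`MulChar.sum_eq_zero_of_ne_one`). -/
def S_REL : Prop := ∀ (p : ℕ) (_ : p.Prime) (w : DirichletCharacter ℂ p) (_ : w (-1) = -1)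
  (W : ℚ → ℂ) (_ : ∀ x, W (x + 1) = W x) (x : ℚ),
  ∑ s ∈ range p, w⁻¹ (s : ZMod p) * ∑ c ∈ range p, w (c : ZMod p) * W (x + (s : ℚ) / p + (c : ℚ) / p) =
    ∑ u ∈ range p, W (x + (u : ℚ) / p) - p * W x

/-- H1G (90 lines), Theorem G for the part `s`, for every level. Proof. This is the proof of `tx_H1` in
`Pool/Agent/MUX/HX_H1.lean` (copy it), with `N'` in place of `p^(s₀+1) N₀`: let `N'` be a nonzero multiple of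
`p^(s₀+1) N₀`, suppose `v(sgnPart s (P 0) ∞ (g ∞)) < 1` for all `g` in `Γ₁(N')`; `q`, `c` from `prj`, `g` from `G` for
`N' q²`; `P 0 ∞ (g ∞) = ∑_t c_t sgnPart s (P 0) (T_t ∞) (T_t g ∞)`, `T_t = mob q t 0 q`, `T_t ∞ = ∞`,
`T_t g ∞ = g' ∞`, `g' = T_t g T_t⁻¹` in `Γ₁(N')`. -/
def S_H1G : Prop := ∀ (p : ℕ) (V : ValuationSubring ℂ) (N₀ s₀ h : ℕ) (a : ℂ) (nu : ℤ → ℂ)
  (P : ℕ → OnePoint ℚ → OnePoint ℚ → ℂ) (s : ℤ) (_ : HypA p V N₀ s₀ h a nu P s)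
  (N' : ℕ) (_ : N' ≠ 0) (_ : p ^ (s₀ + 1) * N₀ ∣ N'),
  ∃ α β γ δ : ℤ, α * δ - β * γ = 1 ∧ (N' : ℤ) ∣ γ ∧ (N' : ℤ) ∣ δ - 1 ∧
    1 ≤ V.valuation (sgnPart (s : ℂ) (P 0) ∞ (mob α β γ δ ∞))

/-- NUA (50 lines). Proof. `nu d ^ k = nu (d ^ k)` (`k ≥ 1`), and `nu` has only finitely many values (period `p N₀`),
so `nu d ^ k = nu d ^ k'` for some `1 ≤ k < k'`: `nu d` is `0` or a root of unity. -/
def S_NUA : Prop := ∀ (p : ℕ) (V : ValuationSubring ℂ) (N₀ s₀ h : ℕ) (a : ℂ) (nu : ℤ → ℂ)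
  (P : ℕ → OnePoint ℚ → OnePoint ℚ → ℂ) (s : ℤ) (_ : HypA p V N₀ s₀ h a nu P s) (d : ℤ),
  IsAlgebraic ℚ (nu d)

/-- UPR (110 lines), the relation for `U_p`. Let `W x = sgnPart (-1) (P 0) ∞ x`, `W1 x = sgnPart (-1) (P 1) ∞ x`.
Proof. By `Sx_HK` (iii) with `hec`, `nup`: `sgnPart (-1) (P (i+1)) ∞ r = ∑_(j<p) sgnPart (-1) (P i) ∞ ((r+j)/p)`. (1) is the
case `i = 0`. By induction on `k`: `sgnPart (-1) (P (k+1)) ∞ r = ∑_(j < p^k) W1 ((r + j)/p^k)` (`j = j0 + p^(k-1)..`: `r ↦ (r + j0)/p` in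
the sum for `k`: `((r + j0)/p + j1)/p^k = (r + j0 + p j1)/p^(k+1)`, `j0 + p j1` runs through `range (p^(k+1))`). Take `k = h - 1` and
`per`: (2). -/
def S_UPR : Prop := ∀ (p : ℕ) (V : ValuationSubring ℂ) (N₀ s₀ h : ℕ) (a : ℂ) (nu : ℤ → ℂ)
  (P : ℕ → OnePoint ℚ → OnePoint ℚ → ℂ) (_ : HypA p V N₀ s₀ h a nu P (-1)),
  (∀ x : ℚ, ∑ j ∈ range p, sgnPart (-1) (P 0) ∞ (((x + j) / p : ℚ) : OnePoint ℚ) =
    sgnPart (-1) (P 1) ∞ (x : OnePoint ℚ)) ∧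
  (∀ x : ℚ, ∑ j ∈ range (p ^ (h - 1)),
    sgnPart (-1) (P 1) ∞ (((x + j) / (p : ℚ) ^ (h - 1) : ℚ) : OnePoint ℚ) =
      a * sgnPart (-1) (P 0) ∞ (x : OnePoint ℚ))

def M_UPR : Prop := Sx_HK → S_UPR

/-- NB (200 lines), the twist is not zero on closed cycles. Proof. Let `W x = sgnPart (-1) (P 0) ∞ x` (period 1: `Sx_HK` (i)), `L = N'`,
and suppose `v(Bt ∞ (g ∞)) < 1` for all `g` in `Γ₁(L)`: so `v(∑_c w(c) W(y + c/p)) < 1` for `SS L y` (`SET` (ii);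
`mob p c 0 p ∞ = ∞`, `mob p c 0 p y = y + c/p`). For `SS (L p²) y`: `SS L (y + s/p)` (`SET` (iv)), so by `REL` (and `v(w⁻¹ s) ≤ 1`, a
root of unity or `0`) `v(∑_(u<p) W(y + u/p) - p W y) < 1`. For `SS (L p²) x`: `y = x/p` has `SS (L p²) y` (`SET` (iii)), so
with `W1 = sgnPart (-1) (P 1) ∞`: `v(W1 x - p W(x/p)) < 1` (`UPR` (1)). `UPR` (2): `a W x = ∑_(j < p^(h-1)) W1 ((x+j)/p^(h-1))`, all
points `x_j = (x+j)/p^(h-1)` have `SS (L p²) x_j`, so `v(a W x - p ∑_j W(x_j/p)) < 1`, with `SS (L p²) (x_j/p)`. By `Sx_BD` and `Sx_HK`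
there is `k` with `v(p^k W x) ≤ 1` for all `x`. Claim: `v(p^e W x) < 1` for all `x` with `SS (L p²) x` and all
`e ≥ 0`. For `e = k + 1` clear (`v p < 1`). If it holds for `e + 1` (for all such `x`) then
`v(p^e a W x) ≤ max(v(p^e) v(a W x - p ∑ ..), v(∑_j p^(e+1) W(x_j/p))) < 1`, and `v a = 1`. So `v(W x) < 1` for all `x` with
`SS (L p²) x`. Against `H1G` for `L p²` (`γ ≠ 0` there: otherwise the value is `sgnPart ∞ ∞ = 0`; `SET` (i)). -/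
def S_NB : Prop := ∀ (p : ℕ) (V : ValuationSubring ℂ) (N₀ s₀ h : ℕ) (a : ℂ) (nu : ℤ → ℂ)
  (P : ℕ → OnePoint ℚ → OnePoint ℚ → ℂ) (_ : HypA p V N₀ s₀ h a nu P (-1))
  (w : DirichletCharacter ℂ p) (_ : w (-1) = -1) (N' : ℕ) (_ : N' ≠ 0)
  (_ : p ^ (s₀ + 1) * N₀ ∣ N'),
  ∃ α β γ δ : ℤ, α * δ - β * γ = 1 ∧ (N' : ℤ) ∣ γ ∧ (N' : ℤ) ∣ δ - 1 ∧
    1 ≤ V.valuation (Bt p w (sgnPart (-1) (P 0)) ∞ (mob α β γ δ ∞))

def M_NB : Prop := Sx_HK → Sx_BD → S_SET → S_REL → S_H1G → S_UPR → S_NB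

/-- TWB (200 lines). Proof. `TWR.S_TW2` for `N = p^(s₀+1) N₀ p²`, `nu' i d = nu i d * (w⁻¹ d)²`, `P' i = Bt p w (sgnPart (-1) (P i 0))`.
`v(nu' i d) ≤ 1`, `nu' i 1 = 1`, period `N` (`p N₀ ∣ N`, `p ∣ N`), algebraic (`NUA`; `w⁻¹ d` is `0` or a root of unity). `IsSym`: `SYM` with
`Sx_HK` (ii). `P' i ∞ x = ∑_c w(c) W(x + c/p)`, `W x = P i 0 ∞ x - P i 0 ∞ (-x)`: algebraic (`HypA.alg`). Even:
`W(-x + c/p) = - W(x - c/p)`, `w(c) = - w(-c)`, and `c ↦ -c` permutes the classes (`W` has period 1: `Sx_HK` (i)). Depleted: `∑_k W(x + c/p + k/l) = 0`: the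
hypothesis at `x + c/p`, and at `-x - c/p - (l-1)/l`.. (`-(x + k/l) = (-x - 1) + (l - k)/l`, period 1: the sum over `k` of
`P i 0 ∞ (-(x + k/l))` is the sum over `k` of `P i 0 ∞ (-x + k/l)`). Closed cycles: `NB`. Conclusion of `TW2` for `ψ`:
`1 ≤ v(∑_b ψ(b) ∑_c w(c) W(b/l^n + c/p))`, and this sum is `S - S'`, `S = ∑_b ∑_c ψ(b) w(c) P i 0 ∞ (b/l^n + c/p)`,
`S' = ∑_b ∑_c ψ(b) w(c) P i 0 ∞ (-b/l^n - c/p)`. The substitution `b ↦ -b`, `c ↦ -c` (period 1, `ψ(-1) = 1`, `w(-1) = -1`) gives `S' = -S`. So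
`1 ≤ v(2 S) ≤ v(S)`. (`2 < p`: `w(-1) = -1` excludes nothing needed; `v 2 ≤ 1` always.) -/
def S_TWB : Prop := ∀ (l g h' : ℕ) (_ : TWR.Gen l g h') (V : ValuationSubring ℂ) (p : ℕ)
  (_ : 5 ≤ p) (I : Type) [Finite I] (N₀ s₀ : ℕ) (h : I → ℕ) (a : I → ℂ) (nu : I → ℤ → ℂ)
  (P : I → ℕ → OnePoint ℚ → OnePoint ℚ → ℂ)
  (_ : ∀ i, HypA p V N₀ s₀ (h i) (a i) (nu i) (P i) (-1))
  (_ : ∀ i (x : ℚ), ∑ k ∈ range l, P i 0 ∞ ((x + (k : ℚ) / l : ℚ) : OnePoint ℚ) = 0)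
  (w : DirichletCharacter ℂ p) (_ : w (-1) = -1) (r : ℕ) (_ : 1 ≤ r) (n0 : ℕ),
  ∃ n ≥ n0, ∀ j < r, ∀ i, ∀ ψ : DirichletCharacter ℂ (l ^ (n + j)), ψ (-1) = 1 →
    ψ (1 + (l : ZMod (l ^ (n + j))) ^ (n + j - 1)) ≠ 1 →
    1 ≤ V.valuation (∑ b ∈ range (l ^ (n + j)), ∑ c ∈ range p, ψ b * w (c : ZMod p) *
      P i 0 ∞ (((b : ℚ) / (l : ℚ) ^ (n + j) + (c : ℚ) / p : ℚ) : OnePoint ℚ))

def M_TWB : Prop := TWR.S_TW2 → Sx_HK → S_SYM → S_NUA → S_NB → S_TWB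

end

end Pool.Agent.TWB
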