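import Pool.Agent.TWT.DefsT
import Pool.Agent.MUX.HY_VAL

/-!
# TWB, module TEI (helper34): existence of the Teichmüller character `TeiP` and its Dirichlet character
-/

set_option autoImplicit false

namespace Pool.Agent.TWB

open _root_.MU3 Pool.Agent.MU3A Pool.Agent.MUX Pool.Agent.TWT

noncomputable section

namespace TEI

/-- the product over the roots of unity of order dividing `n` -/
lemma prod_roots (n : ℕ) (hn : 0 < n) (y : ℂ) :
    ∏ ζ ∈ Polynomial.nthRootsFinset n (1 : ℂ), (y - ζ) = y ^ n - 1 := by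
  have h1 : (Polynomial.X ^ n - 1 : Polynomial ℂ) =
      ∏ ζ ∈ Polynomial.nthRootsFinset n (1 : ℂ), (Polynomial.X - Polynomial.C ζ) :=
    Polynomial.X_pow_sub_one_eq_prod hn (Complex.isPrimitiveRoot_exp n hn.ne')
  have h2 := congrArg (Polynomial.eval y) h1
  rw [Polynomial.eval_prod] at h2
  simpa using h2.symm

lemma val_int (V : ValuationSubring ℂ) (n : ℤ) : V.valuation (n : ℂ) ≤ 1 := MUXHY.Val.int_le V n

lemma uniq (V : ValuationSubring ℂ) (p : ℕ) (hp : p.Prime) (hv : V.valuation (p : ℂ) < 1)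
    (hp2 : 2 < p) (ζ ξ : ℂ) (h1 : ζ ^ (p - 1) = 1) (h2 : ξ ^ (p - 1) = 1)
    (h : V.valuation (ζ - ξ) < 1) : ζ = ξ := by
  classical
  by_contra hne
  have hp1 : 0 < p - 1 := by omega
  have hξ0 : ξ ≠ 0 := by
    rintro rfl
    rw [zero_pow hp1.ne'] at h2
    exact zero_ne_one h2
  have hvξ : V.valuation ξ = 1 := MUXHY.Val.root_one V (p - 1) ξ hp1.ne' h2
  obtain ⟨η, hη⟩ : ∃ η, η = ζ / ξ := ⟨_, rfl⟩
  have hη1 : η ^ (p - 1) = 1 := by rw [hη, div_pow, h1, h2, div_one]
  have hηne : η ≠ 1 := by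
    rw [hη]
    intro h3
    exact hne ((div_eq_one_iff_eq hξ0).1 h3)
  have hv1 : V.valuation (1 - η) < 1 := by
    have h3 : 1 - η = -(ζ - ξ) / ξ := by
      rw [hη]
      field_simp
      ring
    rw [h3, map_div₀, Valuation.map_neg, hvξ, div_one]
    exact h
  -- the sum 1 + y + ... + y^(p-2) at y = 1 is p - 1
  have hsum : ∑ i ∈ Finset.range (p - 1), η ^ i = 0 := by
    have h4 : (η - 1) * ∑ i ∈ Finset.range (p - 1), η ^ i = 0 := by
      rw [mul_geom_sum, hη1, sub_self]
    rcases mul_eq_zero.1 h4 with h5 | h5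
    · exact absurd (sub_eq_zero.1 h5) hηne
    · exact h5
  have hvη : V.valuation η = 1 := MUXHY.Val.root_one V (p - 1) η hp1.ne' hη1
  have hterm : ∀ i : ℕ, V.valuation (1 - η ^ i) < 1 := by
    intro i
    have h6 : 1 - η ^ i = (1 - η) * ∑ j ∈ Finset.range i, η ^ j := by
      have := mul_geom_sum η i
      linear_combination this
    rw [h6, map_mul]
    have h7 : V.valuation (∑ j ∈ Finset.range i, η ^ j) ≤ 1 := by
      refine V.valuation.map_sum_le fun j _ => ?_
      rw [map_pow, hvη, one_pow]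
    exact mul_lt_one_of_lt_of_le hv1 h7
  have h8 : ((p - 1 : ℕ) : ℂ) = ∑ i ∈ Finset.range (p - 1), (1 - η ^ i) := by
    rw [Finset.sum_sub_distrib, hsum]
    simp
  have h9 : V.valuation ((p - 1 : ℕ) : ℂ) < 1 := by
    rw [h8]
    exact V.valuation.map_sum_lt one_ne_zero fun i _ => hterm i
  have h10 : V.valuation (((p - 1 : ℕ) : ℤ) : ℂ) = 1 := by
    refine MUXHY.Val.int_one hp hv _ ?_
    intro hd
    have := Int.le_of_dvd (by omega) hd
    omega
  rw [Int.cast_natCast] at h10
  exact absurd h9 (by rw [h10]; exact lt_irrefl _)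

lemma fermat {A B : ℤ} (p : ℕ) (hp : p.Prime) (P : Ideal (OO A B)) (hP : IsPN p P) (x : OO A B)
    (hx : x ∉ P) : x ^ (p - 1) - 1 ∈ P := by
  have hcard : Nat.card (OO A B ⧸ P) = p := hP.norm
  have hfin : Finite (OO A B ⧸ P) := Nat.finite_of_card_ne_zero (by rw [hcard]; exact hp.ne_zero)
  have hprime := hP.prime
  have hdom : IsDomain (OO A B ⧸ P) := Ideal.Quotient.isDomain P
  have : Fintype (OO A B ⧸ P) := Fintype.ofFinite _
  have hf := Finite.isField_of_domain (OO A B ⧸ P)
  letI := hf.toField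
  have h1 : (Ideal.Quotient.mk P x) ≠ 0 := by
    rwa [Ne, Ideal.Quotient.eq_zero_iff_mem]
  have h2 : (Ideal.Quotient.mk P x) ^ (p - 1) = 1 := by
    have h3 := FiniteField.pow_card_sub_one_eq_one (Ideal.Quotient.mk P x) h1
    rwa [← Nat.card_eq_fintype_card, hcard] at h3
  rw [← Ideal.Quotient.eq_zero_iff_mem, map_sub, map_pow, map_one, h2, sub_self]

/-- existence of the root of unity -/
lemma exi {A B : ℤ} (p : ℕ) (V : ValuationSubring ℂ) (P : Ideal (OO A B)) (hcq : CQ A B)
    (hp : p.Prime) (hp2 : 2 < p) (hP : IsPN p P) (hV : OverI V P) (x : OO A B) (hx : x ∉ P) :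
    ∃ ζ : ℂ, ζ ^ (p - 1) = 1 ∧ V.valuation (ζ - emb x) < 1 := by
  classical
  have hp1 : 0 < p - 1 := by omega
  have hQ := MUXHY.toCQ hcq
  have hmul : ∀ a b : OO A B, emb (a * b) = emb a * emb b :=
    fun a b => (MUXF.tx_ALG A B hQ).1 a b |>.1
  have h1e : emb (1 : OO A B) = 1 := by
    have := ((MUXF.tx_ALG A B hQ).2.2.1 1).1
    simpa using this
  have hadd : ∀ a b : OO A B, emb (a + b) = emb a + emb b :=
    fun a b => (MUXF.tx_ALG A B hQ).1 a b |>.2.1
  have hpow : ∀ n : ℕ, emb (x ^ n) = emb x ^ n := by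
    intro n
    induction n with
    | zero => simp [h1e]
    | succ n ih => rw [pow_succ, pow_succ, hmul, ih]
  have h1 := (hV _).2 (fermat p hp P hP x hx)
  rw [ValuationSubring.mem_nonunits_iff] at h1
  have h2 : emb (x ^ (p - 1) - 1) = emb x ^ (p - 1) - 1 := by
    have h3 := hadd (x ^ (p - 1) - 1) 1
    rw [sub_add_cancel, hpow, h1e] at h3
    linear_combination -h3
  rw [h2, ← prod_roots (p - 1) hp1 (emb x), map_prod] at h1
  by_contra hcon
  push Not at hcon
  have h4 : ∀ ζ ∈ Polynomial.nthRootsFinset (p - 1) (1 : ℂ), 1 ≤ V.valuation (emb x - ζ) := by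
    intro ζ hζ
    rw [Polynomial.mem_nthRootsFinset hp1] at hζ
    rw [← Valuation.map_sub_swap]
    exact hcon ζ hζ
  have h5 : 1 ≤ ∏ ζ ∈ Polynomial.nthRootsFinset (p - 1) (1 : ℂ), V.valuation (emb x - ζ) :=
    Finset.one_le_prod' h4
  exact absurd h1 (not_lt.2 h5)

end TEI

open TEI in
/-- the Teichmüller character exists -/
theorem t_TEI (p : ℕ) (A B : ℤ) (P : Ideal (OO A B)) (V : ValuationSubring ℂ) (hcq : CQ A B)
    (hp : p.Prime) (hp2 : 2 < p) (hP : IsPN p P) (hV : OverI V P) :
    ∃ w : OO A B → ℂ, TeiP p P V w := by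
  classical
  have hp1 : 0 < p - 1 := by omega
  have hQ := MUXHY.toCQ hcq
  have hmul : ∀ a b : OO A B, emb (a * b) = emb a * emb b :=
    fun a b => (MUXF.tx_ALG A B hQ).1 a b |>.1
  have h1e : emb (1 : OO A B) = 1 := by
    have := ((MUXF.tx_ALG A B hQ).2.2.1 1).1
    simpa using this
  have hadd : ∀ a b : OO A B, emb (a + b) = emb a + emb b :=
    fun a b => (MUXF.tx_ALG A B hQ).1 a b |>.2.1
  have hcast : ∀ c : ℤ, emb (c : OO A B) = c := fun c => ((MUXF.tx_ALG A B hQ).2.2.1 c).1
  have hvp : V.valuation (p : ℂ) < 1 := by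
    have h1 := (hV _).2 hP.mem
    rw [ValuationSubring.mem_nonunits_iff] at h1
    have h2 := hcast (p : ℤ)
    rw [Int.cast_natCast, Int.cast_natCast] at h2
    rwa [h2] at h1
  have hvle : ∀ x : OO A B, V.valuation (emb x) ≤ 1 := fun x =>
    (ValuationSubring.valuation_le_one_iff _ _).2 (MUXHY.Val.emb_mem hQ V x)
  have hVlt : ∀ x ∈ P, V.valuation (emb x) < 1 := by
    intro x hx
    have h1 := (hV x).2 hx
    rwa [ValuationSubring.mem_nonunits_iff] at h1
  let w : OO A B → ℂ := fun x => if hx : x ∈ P then 0 else (exi p V P hcq hp hp2 hP hV x hx).choose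
  have hw0 : ∀ x ∈ P, w x = 0 := fun x hx => dif_pos hx
  have hw1 : ∀ x ∉ P, w x ^ (p - 1) = 1 ∧ V.valuation (w x - emb x) < 1 := by
    intro x hx
    have h1 : w x = (exi p V P hcq hp hp2 hP hV x hx).choose := dif_neg hx
    rw [h1]
    exact (exi p V P hcq hp hp2 hP hV x hx).choose_spec
  have hwu : ∀ x ∉ P, ∀ ζ : ℂ, ζ ^ (p - 1) = 1 → V.valuation (ζ - emb x) < 1 → w x = ζ := by
    intro x hx ζ h1 h2
    refine uniq V p hp hvp hp2 _ _ (hw1 x hx).1 h1 ?_
    have h3 : w x - ζ = (w x - emb x) - (ζ - emb x) := by ring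
    rw [h3]
    exact lt_of_le_of_lt (V.valuation.map_sub _ _) (max_lt (hw1 x hx).2 h2)
  have h1P : (1 : OO A B) ∉ P := fun h => hP.prime.ne_top ((Ideal.eq_top_iff_one _).2 h)
  have hne0 : ∀ x ∉ P, w x ≠ 0 := by
    intro x hx h0
    have := (hw1 x hx).1
    rw [h0, zero_pow hp1.ne'] at this
    exact zero_ne_one this
  refine ⟨w, ?_, ?_, ?_, ?_, ?_, ?_, ?_⟩
  · refine hwu 1 h1P 1 (one_pow _) ?_
    rw [h1e, sub_self, map_zero]
    exact zero_lt_one
  · intro x y
    by_cases hx : x ∈ P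
    · rw [hw0 x hx, hw0 _ (P.mul_mem_right y hx), zero_mul]
    by_cases hy : y ∈ P
    · rw [hw0 y hy, hw0 _ (P.mul_mem_left x hy), mul_zero]
    have hxy : x * y ∉ P := fun h => (hP.prime.mem_or_mem h).elim hx hy
    refine hwu _ hxy _ ?_ ?_
    · rw [mul_pow, (hw1 x hx).1, (hw1 y hy).1, one_mul]
    · have h3 : w x * w y - emb (x * y) = (w x - emb x) * w y + emb x * (w y - emb y) := by
        rw [hmul]; ring
      rw [h3]
      refine lt_of_le_of_lt (V.valuation.map_add _ _) (max_lt ?_ ?_)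
      · rw [map_mul, MUXHY.Val.root_one V (p - 1) (w y) hp1.ne' (hw1 y hy).1, mul_one]
        exact (hw1 x hx).2
      · exact MUXHY.Val.mul_lt (hvle x) (hw1 y hy).2
  · intro x y hxy
    by_cases hx : x ∈ P
    · have hy : y ∈ P := by
        have := P.sub_mem hx hxy
        rwa [sub_sub_cancel] at this
      rw [hw0 x hx, hw0 y hy]
    · have hy : y ∉ P := by
        intro hy
        have := P.add_mem hxy hy
        rw [sub_add_cancel] at this
        exact hx this
      refine hwu x hx (w y) (hw1 y hy).1 ?_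
      have h3 : w y - emb x = (w y - emb y) - emb (x - y) := by
        have h4 := hadd (x - y) y
        rw [sub_add_cancel] at h4
        rw [h4]; ring
      rw [h3]
      exact lt_of_le_of_lt (V.valuation.map_sub _ _) (max_lt (hw1 y hy).2 (hVlt _ hxy))
  · intro x
    refine ⟨fun h => ?_, hw0 x⟩
    by_contra hx
    exact hne0 x hx h
  · intro x hx
    exact (hw1 x hx).1
  · intro x
    by_cases hx : x ∈ P
    · rw [hw0 x hx, zero_sub, Valuation.map_neg]
      exact hVlt x hx
    · exact (hw1 x hx).2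
  · intro c
    by_cases hc : (c : OO A B) ∈ P
    · rw [hw0 _ hc, zero_sub, Valuation.map_neg]
      have h1 := hVlt _ hc
      rw [hcast] at h1
      have hd : (p : ℤ) ∣ c := by
        by_contra hd
        rw [MUXHY.Val.int_one hp hvp c hd] at h1
        exact lt_irrefl _ h1
      obtain ⟨t, rfl⟩ := hd
      push_cast
      rw [map_mul]
      exact mul_le_of_le_one_right' (val_int V t)
    · have hroots := prod_roots (p - 1) hp1 (c : ℂ)
      have hmem : w (c : OO A B) ∈ Polynomial.nthRootsFinset (p - 1) (1 : ℂ) := by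
        rw [Polynomial.mem_nthRootsFinset hp1]
        exact (hw1 _ hc).1
      have hv := congrArg V.valuation hroots
      rw [map_prod, ← Finset.mul_prod_erase _ _ hmem] at hv
      have hone : ∏ ζ ∈ (Polynomial.nthRootsFinset (p - 1) (1 : ℂ)).erase (w (c : OO A B)),
          V.valuation ((c : ℂ) - ζ) = 1 := by
        refine Finset.prod_eq_one fun ζ hζ => ?_
        rw [Finset.mem_erase, Polynomial.mem_nthRootsFinset hp1] at hζ
        have hle : V.valuation ((c : ℂ) - ζ) ≤ 1 := by
          refine le_trans (V.valuation.map_sub _ _) (max_le (val_int V c) ?_)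
          rw [MUXHY.Val.root_one V (p - 1) ζ hp1.ne' hζ.2]
        refine le_antisymm hle (not_lt.1 fun hlt => ?_)
        apply hζ.1
        refine (hwu _ hc ζ hζ.2 ?_).symm
        rw [hcast, Valuation.map_sub_swap]
        exact hlt
      rw [hone, mul_one] at hv
      rw [Valuation.map_sub_swap, hv]
      have hd : ¬ (p : ℤ) ∣ c := by
        intro hd
        apply hc
        obtain ⟨t, rfl⟩ := hd
        push_cast
        exact P.mul_mem_right _ hP.mem
      have hf : (p : ℤ) ∣ c ^ (p - 1) - 1 := by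
        have : Fact p.Prime := ⟨hp⟩
        have hcz : (c : ZMod p) ≠ 0 := by
          rw [Ne, ZMod.intCast_zmod_eq_zero_iff_dvd]
          exact hd
        have := ZMod.pow_card_sub_one_eq_one hcz
        rw [← ZMod.intCast_zmod_eq_zero_iff_dvd]
        push_cast
        rw [this, sub_self]
      obtain ⟨t, ht⟩ := hf
      have h6 : (c : ℂ) ^ (p - 1) - 1 = (p : ℂ) * t := by exact_mod_cast ht
      rw [h6, map_mul]
      exact mul_le_of_le_one_right' (val_int V t)

/-- the Dirichlet character `c ↦ w(c)⁻¹` -/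
theorem t_TED (p : ℕ) (A B : ℤ) (P : Ideal (OO A B)) (V : ValuationSubring ℂ) (hcq : CQ A B)
    (hp : p.Prime) (hp2 : 2 < p) (hP : IsPN p P) (hV : OverI V P) (w : OO A B → ℂ)
    (hw : TeiP p P V w) :
    ∃ wD : DirichletCharacter ℂ p, (∀ c : ℤ, wD (c : ZMod p) = (w (c : OO A B))⁻¹) ∧
      wD (-1) = -1 := by
  have : Fact p.Prime := ⟨hp⟩
  have hp1 : 0 < p - 1 := by omega
  have hQ := MUXHY.toCQ hcq
  have hcast : ∀ c : ℤ, emb (c : OO A B) = c := fun c => ((MUXF.tx_ALG A B hQ).2.2.1 c).1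
  have hper : ∀ a b : ℤ, (a : ZMod p) = (b : ZMod p) → w (a : OO A B) = w (b : OO A B) := by
    intro a b hab
    apply hw.per
    rw [ZMod.intCast_eq_intCast_iff_dvd_sub] at hab
    obtain ⟨t, ht⟩ := hab
    have h1 : (a : OO A B) - b = -((p : OO A B) * (t : OO A B)) := by
      have h2 : a - b = -((p : ℤ) * t) := by linarith
      have h3 := congrArg (fun z : ℤ => (z : OO A B)) h2
      push_cast at h3
      exact h3
    rw [h1]
    exact P.neg_mem (P.mul_mem_right _ hP.mem)
  have hval : ∀ c : ZMod p, w (((c.val : ℕ) : ℤ) : OO A B) = w ((c.cast : ℤ) : OO A B) := by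
    intro c
    apply hper
    simp
  let wD : DirichletCharacter ℂ p :=
    { toFun := fun c => (w ((c.cast : ℤ) : OO A B))⁻¹
      map_one' := by
        have h1 : w ((((1 : ZMod p).cast : ℤ)) : OO A B) = w (((1 : ℤ)) : OO A B) := by
          apply hper
          simp
        simp only [h1]
        rw [Int.cast_one, hw.one, inv_one]
      map_mul' := by
        intro a b
        have h1 : w ((((a * b : ZMod p).cast : ℤ)) : OO A B) =
            w (((a.cast : ℤ) * (b.cast : ℤ) : ℤ) : OO A B) := by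
          apply hper
          simp
        simp only [h1]
        rw [Int.cast_mul, hw.mul, mul_inv]
      map_nonunit' := by
        intro a ha
        have h1 : a = 0 := by
          by_contra h2
          exact ha (isUnit_iff_ne_zero.2 h2)
        have h2 : w ((((a : ZMod p).cast : ℤ)) : OO A B) = w (((0 : ℤ)) : OO A B) := by
          apply hper
          simp [h1]
        simp only [h2]
        rw [Int.cast_zero, (hw.zero 0).2 P.zero_mem, inv_zero] }
  have hwD : ∀ c : ℤ, wD (c : ZMod p) = (w (c : OO A B))⁻¹ := by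
    intro c
    change (w (((c : ZMod p).cast : ℤ) : OO A B))⁻¹ = _
    rw [hper _ c (by simp)]
  refine ⟨wD, hwD, ?_⟩
  have hvp : V.valuation (p : ℂ) < 1 := by
    have h1 := (hV _).2 hP.mem
    rw [ValuationSubring.mem_nonunits_iff] at h1
    have h2 := hcast (p : ℤ)
    rw [Int.cast_natCast, Int.cast_natCast] at h2
    rwa [h2] at h1
  have h3 : w ((-1 : ℤ) : OO A B) = -1 := by
    have hn : ((-1 : ℤ) : OO A B) ∉ P := by
      intro h
      push_cast at h
      have := P.neg_mem h
      rw [neg_neg] at this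
      exact hP.prime.ne_top ((Ideal.eq_top_iff_one _).2 this)
    refine TEI.uniq V p hp hvp hp2 _ _ (hw.root _ hn) ?_ ?_
    · have hev : Even (p - 1) := hp.even_sub_one (by omega)
      exact hev.neg_one_pow
    · have := hw.red ((-1 : ℤ) : OO A B)
      rw [hcast] at this
      push_cast at this ⊢
      exact this
  have h4 := hwD (-1)
  rw [h3] at h4
  push_cast at h4
  rw [h4]
  norm_num

end

end Pool.Agent.TWB
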